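import Pool.Agent.H240R3.WT.Stmts

namespace Pool.Agent.H240R3.WT

open Filter Topology

noncomputable section

theorem wV_nonneg {p : ℝ} (h0 : 0 ≤ p) (h1 : p ≤ 1) (c : VC) : 0 ≤ wV p c := by
  cases c <;> simp [wV] <;> linarith

theorem wE_nonneg {p : ℝ} (h0 : 0 ≤ p) (h1 : p ≤ 1) (c : EC) : 0 ≤ wE p c := by
  cases c <;> simp [wE] <;> linarith

theorem Wm_nonneg {p : ℝ} (h0 : 0 ≤ p) (h1 : p ≤ 1) (τ : WType) (u v : τ.V) :
    0 ≤ Wm p τ u v := by
  unfold Wm
  split_ifs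
  · exact wV_nonneg h0 h1 _
  · exact wE_nonneg h0 h1 _

open Classical in
theorem pair_le {p : ℝ} (h0 : 0 ≤ p) (h1 : p ≤ 1) (τ : WType) (G : MG) (ψ : Fin G.n → τ.V)
    (hψ : ∀ i j, i ≠ j →
      (ψ i = ψ j → PairV G i j (τ.vc (ψ i))) ∧ (ψ i ≠ ψ j → PairE G i j (τ.ec (ψ i) (ψ j))))
    (a b : Fin G.n) (hab : a ≠ b) (R S : Prop) (hR : R → G.red.Adj a b)
    (hS : S → G.blue.Adj a b) :
    (if R then p else 0) + (if S then 1 - p else 0) ≤ Wm p τ (ψ a) (ψ b) := by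
  unfold Wm
  by_cases h : ψ a = ψ b
  · have h2 := (hψ a b hab).1 h
    rw [if_pos h]
    cases hv : τ.vc (ψ a) <;> rw [hv] at h2 <;> simp only [PairV] at h2 <;>
      by_cases r : R <;> by_cases s : S <;> simp [r, s, wV] <;>
      first
      | linarith
      | exact absurd (hS s) h2.2
      | exact absurd (hR r) h2.1
      | skip
  · have h2 := (hψ a b hab).2 h
    rw [if_neg h]
    cases hv : τ.ec (ψ a) (ψ b) <;> rw [hv] at h2 <;> simp only [PairE] at h2 <;>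
      by_cases r : R <;> by_cases s : S <;> simp [r, s, wE] <;>
      first
      | linarith
      | exact absurd (hS s) h2.2
      | exact absurd (hR r) h2.1
      | skip

/-- is a red edge allowed in the full blow-up -/
def RedOK (τ : WType) (u v : τ.V) : Prop :=
  (u = v ∧ τ.vc u = VC.red) ∨ (u ≠ v ∧ (τ.ec u v = EC.red ∨ τ.ec u v = EC.green))

def BlueOK (τ : WType) (u v : τ.V) : Prop :=
  (u = v ∧ τ.vc u = VC.blue) ∨ (u ≠ v ∧ (τ.ec u v = EC.blue ∨ τ.ec u v = EC.green))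

/-- the full blow-up -/
def blow (τ : WType) (M : ℕ) (φ : Fin M → τ.V) : MG where
  n := M
  red :=
    { Adj := fun i j => i ≠ j ∧ RedOK τ (φ i) (φ j)
      symm := ⟨by
        rintro i j ⟨h, h2⟩
        refine ⟨h.symm, ?_⟩
        rcases h2 with ⟨h3, h4⟩ | ⟨h3, h4⟩
        · exact Or.inl ⟨h3.symm, h3 ▸ h4⟩
        · exact Or.inr ⟨fun h5 => h3 h5.symm, by rwa [τ.symm] at h4⟩⟩
      loopless := ⟨fun i h => h.1 rfl⟩ }
  blue :=
    { Adj := fun i j => i ≠ j ∧ BlueOK τ (φ i) (φ j)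
      symm := ⟨by
        rintro i j ⟨h, h2⟩
        refine ⟨h.symm, ?_⟩
        rcases h2 with ⟨h3, h4⟩ | ⟨h3, h4⟩
        · exact Or.inl ⟨h3.symm, h3 ▸ h4⟩
        · exact Or.inr ⟨fun h5 => h3 h5.symm, by rwa [τ.symm] at h4⟩⟩
      loopless := ⟨fun i h => h.1 rfl⟩ }

theorem blow_inQ (τ : WType) (M : ℕ) (φ : Fin M → τ.V) : InQ τ (blow τ M φ) := by
  refine ⟨φ, ?_⟩
  intro i j hij
  have hij' : ¬ ((i : Fin M) = j) := hij
  constructor
  · intro h
    have h' : φ j = φ i := h.symm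
    change PairV (blow τ M φ) i j (τ.vc (φ i))
    cases hv : τ.vc (φ i) <;>
      simp only [PairV, blow, RedOK, BlueOK, h'] <;> simp [hij', hv] <;> exact hij'
  · intro h
    have h' : ¬ (φ i = φ j) := h
    change PairE (blow τ M φ) i j (τ.ec (φ i) (φ j))
    cases hv : τ.ec (φ i) (φ j) <;>
      simp only [PairE, blow, RedOK, BlueOK] <;> simp [hij', h', hv] <;> exact hij'

open Classical in
theorem blow_weight (p : ℝ) (τ : WType) (M : ℕ) (φ : Fin M → τ.V) (i j : Fin M) (hij : i ≠ j) :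
    Wm p τ (φ i) (φ j) = (if (blow τ M φ).red.Adj i j then p else 0) +
      (if (blow τ M φ).blue.Adj i j then 1 - p else 0) := by
  unfold Wm
  by_cases h : φ i = φ j
  · have h' : φ j = φ i := h.symm
    rw [if_pos h]
    cases hv : τ.vc (φ i) <;>
      simp only [blow, RedOK, BlueOK, h'] <;> simp [hij, hv, wV]
  · rw [if_neg h]
    cases hv : τ.ec (φ i) (φ j) <;>
      simp only [blow, RedOK, BlueOK] <;> simp [hij, h, hv, wE]

theorem Sub_refl (G : MG) : Sub G G :=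
  ⟨id, Function.injective_id, fun _ _ h => h, fun _ _ h => h⟩

open Classical in
theorem sum_comp_fiber {V : Type} [Fintype V] {M : ℕ} (ψ : Fin M → V) (f : V → ℝ) :
    ∑ i, f (ψ i) = ∑ v, ((Finset.univ.filter (fun i => ψ i = v)).card : ℝ) * f v := by
  have h1 : ∀ i, f (ψ i) = ∑ v, if ψ i = v then f v else 0 := by
    intro i; simp
  simp_rw [h1]
  rw [Finset.sum_comm]
  refine Finset.sum_congr rfl fun v _ => ?_
  rw [← Finset.sum_filter]
  simp

end

end Pool.Agent.H240R3.WT
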