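import Pool.Agent.H240R3.WT.Core
import Pool.Agent.H240R3.WT.Main

namespace Pool.Agent.H240R3.WT

open Filter Topology

noncomputable section

/-- optimal weight of the first chain vertex -/
def tstar : ℝ := (132569408161/110613759015965)

/-- optimal reservoir mass -/
def mstar : ℝ := (13210125809811/110613759015965)

theorem form_eq (hC : TaskC) (n : ℕ) (z : (Fin 11 ⊕ Fin n) → ℝ) (hz : ∑ v, z v = 1) (t : ℕ → ℝ)
    (ht : ∀ k : Fin n, t k = z (Sum.inr k)) (ht0 : ∀ k, n ≤ k → t k = 0) :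
    form p0 (T n) z = 1 - (Pq (z (Sum.inl 0) + ∑ k ∈ Finset.range n, t k)
      (z (Sum.inl 1)) (z (Sum.inl 2)) (z (Sum.inl 3)) (z (Sum.inl 4)) (z (Sum.inl 5))
      (z (Sum.inl 6)) (z (Sum.inl 7)) (z (Sum.inl 8)) (z (Sum.inl 9)) (z (Sum.inl 10)) (t 0)
      + (49/120) * ∑ k ∈ Finset.range n, (t (k+1) - 2/7 * t k)^2) :=
  hC n z t ht ht0 hz

theorem sum_eq (n : ℕ) (z : (Fin 11 ⊕ Fin n) → ℝ) (t : ℕ → ℝ)
    (ht : ∀ k : Fin n, t k = z (Sum.inr k)) :
    ∑ v, z v = (z (Sum.inl 0) + ∑ k ∈ Finset.range n, t k) +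
      (z (Sum.inl 1)) + (z (Sum.inl 2)) + (z (Sum.inl 3)) + (z (Sum.inl 4)) + (z (Sum.inl 5)) +
      (z (Sum.inl 6)) + (z (Sum.inl 7)) + (z (Sum.inl 8)) + (z (Sum.inl 9)) +
      (z (Sum.inl 10)) := by
  rw [Fintype.sum_sum_type, Finset.sum_range]
  have h2 : ∑ k : Fin n, z (Sum.inr k) = ∑ k : Fin n, t k :=
    Finset.sum_congr rfl fun k _ => (ht k).symm
  rw [h2]
  have h3 : ∑ i : Fin 11, z (Sum.inl i) = z (Sum.inl 0) + z (Sum.inl 1) + z (Sum.inl 2) +
      z (Sum.inl 3) + z (Sum.inl 4) + z (Sum.inl 5) + z (Sum.inl 6) + z (Sum.inl 7) +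
      z (Sum.inl 8) + z (Sum.inl 9) + z (Sum.inl 10) := by
    simp only [Fin.sum_univ_succ, Fin.sum_univ_zero]
    simp only [Fin.succ_zero_eq_one, Fin.succ_one_eq_two]
    have e3 : (Fin.succ (Fin.succ (Fin.succ (0 : Fin 8))) : Fin 11) = 3 := rfl
    have e4 : (Fin.succ (Fin.succ (Fin.succ (Fin.succ (0 : Fin 7)))) : Fin 11) = 4 := rfl
    ring_nf
    rfl
  rw [h3]
  ring

theorem Pq_lower (m c1 c2 c3 c4 c5 c6 c7 c8 c9 c10 t : ℝ)
    (h : m + c1 + c2 + c3 + c4 + c5 + c6 + c7 + c8 + c9 + c10 = 1) :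
    nu + (1/13) * (t - tstar)^2 ≤ Pq m c1 c2 c3 c4 c5 c6 c7 c8 c9 c10 t := by
  rw [Pq_shift, h]
  have h2 := Pq_ge (m - (13210125809811/110613759015965)) (c1 - (1928850184709/221227518031930)) (c2 - (500432163791/110613759015965)) (c3 - (29279169903471/221227518031930)) (c4 - (2123192772589/221227518031930))
    (c5 - (29084827315591/221227518031930)) (c6 - (18523008406881/110613759015965)) (c7 - (1244695986408/22122751803193)) (c8 - (3209778537718/22122751803193)) (c9 - (6102203601431/110613759015965)) (c10 - (18797596325241/110613759015965))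
    (t - (132569408161/110613759015965))
  have h3 : (1/13 : ℝ) * (t - tstar)^2 ≤ (104357794504817/1273654909476120) * (t - tstar)^2 := by
    apply mul_le_mul_of_nonneg_right _ (sq_nonneg _)
    norm_num
  unfold tstar at h3 ⊢
  linarith

theorem key (hC : TaskC) (n : ℕ) (z : (Fin 11 ⊕ Fin n) → ℝ) (hz : ∑ v, z v = 1) (t : ℕ → ℝ)
    (ht : ∀ k : Fin n, t k = z (Sum.inr k)) (ht0 : ∀ k, n ≤ k → t k = 0) :
    form p0 (T n) z ≤ (1 - nu) - ((1/13) * (t 0 - tstar)^2 +
      (1/13) * ∑ k ∈ Finset.range n, (t (k+1) - 2/7 * t k)^2) := by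
  rw [form_eq hC n z hz t ht ht0]
  have h1 := Pq_lower _ _ _ _ _ _ _ _ _ _ _ (t 0) ((sum_eq n z t ht).symm.trans hz)
  have h2 : 0 ≤ ∑ k ∈ Finset.range n, (t (k+1) - 2/7 * t k)^2 :=
    Finset.sum_nonneg fun _ _ => sq_nonneg _
  linarith

theorem H1c (hC : TaskC) (n : ℕ) (z : (T n).V → ℝ) (hz : z ∈ stdSimplex ℝ (T n).V) :
    form p0 (T n) z ≤ 1 - nu := by
  let t : ℕ → ℝ := fun k => if h : k < n then z (Sum.inr ⟨k, h⟩) else 0
  have ht : ∀ k : Fin n, t k = z (Sum.inr k) := fun k => by simp [t]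
  have ht0 : ∀ k, n ≤ k → t k = 0 := fun k hk => by simp [t, Nat.not_lt.mpr hk]
  have h := key hC n z hz.2 t ht ht0
  have h2 : 0 ≤ ∑ k ∈ Finset.range n, (t (k+1) - 2/7 * t k)^2 :=
    Finset.sum_nonneg fun _ _ => sq_nonneg _
  nlinarith [sq_nonneg (t 0 - tstar)]

theorem tstar_pos : 0 < tstar := by unfold tstar; norm_num

theorem H2c (hC : TaskC) (K : ℕ) : ∃ ε : ℝ, 0 < ε ∧ ∃ z0 : ℝ, 0 < z0 ∧ ∀ n,
      ∀ ζ ∈ stdSimplex ℝ (T n).V,
      (1 - nu) - ε ≤ form p0 (T n) ζ →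
      ∃ u : Fin K → (T n).V, (∀ k, (T n).vc (u k) = VC.white) ∧
        (∀ k l, k ≠ l → 53/120 ≤ Wm p0 (T n) (u k) (u l)) ∧ ∀ k, z0 ≤ ζ (u k) := by
  have hts := tstar_pos
  set e : ℝ := (2/7)^K * tstar / 4 with he
  have hepos : 0 < e := by positivity
  refine ⟨e^2/13, by positivity, (2/7)^K * tstar / 2, by positivity, ?_⟩
  intro n z hz hform
  let t : ℕ → ℝ := fun k => if h : k < n then z (Sum.inr ⟨k, h⟩) else 0
  have ht : ∀ k : Fin n, t k = z (Sum.inr k) := fun k => by simp [t]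
  have ht0 : ∀ k, n ≤ k → t k = 0 := fun k hk => by simp [t, Nat.not_lt.mpr hk]
  have h := key hC n z hz.2 t ht ht0
  have h2 : 0 ≤ ∑ k ∈ Finset.range n, (t (k+1) - 2/7 * t k)^2 :=
    Finset.sum_nonneg fun _ _ => sq_nonneg _
  have hA : (t 0 - tstar)^2 ≤ e^2 := by nlinarith
  have hB : ∑ k ∈ Finset.range n, (t (k+1) - 2/7 * t k)^2 ≤ e^2 := by
    nlinarith [sq_nonneg (t 0 - tstar)]
  have hA' := abs_le_of_sq_le_sq' hA hepos.le
  have hB' : ∀ k, - e ≤ t (k+1) - 2/7 * t k := by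
    intro k
    by_cases hk : k < n
    · have h3 : (t (k+1) - 2/7 * t k)^2 ≤ e^2 :=
        (Finset.single_le_sum (f := fun k => (t (k+1) - 2/7 * t k)^2)
          (fun _ _ => sq_nonneg _) (Finset.mem_range.mpr hk)).trans hB
      exact (abs_le_of_sq_le_sq' h3 hepos.le).1
    · rw [ht0 k (by omega), ht0 (k+1) (by omega)]
      linarith
  have hind : ∀ k, (2/7)^k * tstar - 7/5 * e ≤ t k := by
    intro k
    induction k with
    | zero => simp only [pow_zero, one_mul]; linarith [hA'.1]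
    | succ k ih =>
      have := hB' k
      rw [pow_succ]
      nlinarith
  have hlow : ∀ k : Fin K, (2/7)^K * tstar / 2 ≤ t k := by
    intro k
    have h3 := hind k
    have h4 : (2/7 : ℝ)^K ≤ (2/7)^(k : ℕ) :=
      pow_le_pow_of_le_one (by norm_num) (by norm_num) k.2.le
    have h5 : (2/7 : ℝ)^K * tstar ≤ (2/7)^(k : ℕ) * tstar :=
      mul_le_mul_of_nonneg_right h4 hts.le
    have h6 : 0 < (2/7 : ℝ)^K * tstar := by positivity
    rw [he] at h3
    linarith
  have hlt : ∀ k : Fin K, (k : ℕ) < n := by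
    intro k
    by_contra hk
    have h3 := hlow k
    rw [ht0 k (by omega)] at h3
    have h6 : 0 < (2/7 : ℝ)^K * tstar := by positivity
    linarith
  refine ⟨fun k => Sum.inr ⟨k, hlt k⟩, fun k => rfl, ?_, ?_⟩
  · intro k l hkl
    have hne : (Sum.inr ⟨k, hlt k⟩ : Fin 11 ⊕ Fin n) ≠ Sum.inr ⟨l, hlt l⟩ := by
      intro h7
      have h8 := Sum.inr.inj h7
      exact hkl (Fin.ext (by simpa using congrArg Fin.val h8))
    have hW : Wm p0 (T n) (Sum.inr ⟨k, hlt k⟩ : Fin 11 ⊕ Fin n)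
        (Sum.inr ⟨l, hlt l⟩ : Fin 11 ⊕ Fin n) = wE p0 (chainEC k l) := by
      unfold Wm
      exact if_neg hne
    change 53/120 ≤ Wm p0 (T n) (Sum.inr ⟨k, hlt k⟩ : Fin 11 ⊕ Fin n)
        (Sum.inr ⟨l, hlt l⟩ : Fin 11 ⊕ Fin n)
    rw [hW]
    unfold chainEC
    split_ifs
    · simp only [wE, p0]; norm_num
    · simp only [wE, p0]; norm_num
  · intro k
    have := hlow k
    rw [ht ⟨k, hlt k⟩] at this
    exact this

theorem geom (n : ℕ) : ∑ k ∈ Finset.range n, (2/7 : ℝ)^k = 7/5 * (1 - (2/7)^n) := by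
  induction n with
  | zero => simp
  | succ n ih => rw [Finset.sum_range_succ, ih, pow_succ]; ring

theorem H3c (hC : TaskC) (ε : ℝ) (hε : 0 < ε) :
    ∃ n, ∃ ζ ∈ stdSimplex ℝ (T n).V, (1 - nu) - ε ≤ form p0 (T n) ζ := by
  obtain ⟨n, hn⟩ := exists_pow_lt_of_lt_one hε (show (2/7 : ℝ) < 1 by norm_num)
  refine ⟨n + 1, ?_⟩
  have hts := tstar_pos
  let c0 : ℝ := mstar - ∑ k ∈ Finset.range (n+1), tstar * (2/7)^k
  have hc0 : 0 ≤ c0 := by
    have h1 : ∑ k ∈ Finset.range (n+1), tstar * (2/7 : ℝ)^k = tstar * (7/5 * (1 - (2/7)^(n+1))) := by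
      rw [← Finset.mul_sum, geom]
    have h2 : (0:ℝ) < (2/7)^(n+1) := by positivity
    have h3 : tstar * (7/5 * (1 - (2/7)^(n+1))) ≤ tstar * (7/5) := by
      apply mul_le_mul_of_nonneg_left _ hts.le
      linarith
    have h4 : tstar * (7/5) ≤ mstar := by unfold tstar mstar; norm_num
    show 0 ≤ mstar - ∑ k ∈ Finset.range (n+1), tstar * (2/7)^k
    rw [h1]
    linarith
  let cv : Fin 11 → ℝ := ![c0, (1928850184709/221227518031930), (500432163791/110613759015965), (29279169903471/221227518031930), (2123192772589/221227518031930), (29084827315591/221227518031930), (18523008406881/110613759015965), (1244695986408/22122751803193), (3209778537718/22122751803193),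
    (6102203601431/110613759015965), (18797596325241/110613759015965)]
  let z : (Fin 11 ⊕ Fin (n+1)) → ℝ := Sum.elim cv (fun k => tstar * (2/7)^(k : ℕ))
  let t : ℕ → ℝ := fun k => if k < n + 1 then tstar * (2/7)^k else 0
  have ht : ∀ k : Fin (n+1), t k = z (Sum.inr k) := fun k => by
    show (if (k : ℕ) < n + 1 then tstar * (2/7)^(k : ℕ) else 0) = tstar * (2/7)^(k : ℕ)
    rw [if_pos k.2]
  have ht0 : ∀ k, n + 1 ≤ k → t k = 0 := fun k hk => by
    simp only [t]; rw [if_neg (by omega)]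
  have hsumt : ∑ k ∈ Finset.range (n+1), t k = ∑ k ∈ Finset.range (n+1), tstar * (2/7)^k := by
    refine Finset.sum_congr rfl fun k hk => ?_
    simp only [t]; rw [if_pos (Finset.mem_range.mp hk)]
  have hm : z (Sum.inl 0) + ∑ k ∈ Finset.range (n+1), t k = mstar := by
    rw [hsumt]
    show c0 + _ = _
    simp only [c0]
    ring
  have hz1 : z (Sum.inl 1) = (1928850184709/221227518031930) := rfl
  have hz2 : z (Sum.inl 2) = (500432163791/110613759015965) := rfl
  have hz3 : z (Sum.inl 3) = (29279169903471/221227518031930) := rfl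
  have hz4 : z (Sum.inl 4) = (2123192772589/221227518031930) := rfl
  have hz5 : z (Sum.inl 5) = (29084827315591/221227518031930) := rfl
  have hz6 : z (Sum.inl 6) = (18523008406881/110613759015965) := rfl
  have hz7 : z (Sum.inl 7) = (1244695986408/22122751803193) := rfl
  have hz8 : z (Sum.inl 8) = (3209778537718/22122751803193) := rfl
  have hz9 : z (Sum.inl 9) = (6102203601431/110613759015965) := rfl
  have hz10 : z (Sum.inl 10) = (18797596325241/110613759015965) := rfl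
  have hsum : ∑ v, z v = 1 := by
    rw [sum_eq (n+1) z t ht, hm, hz1, hz2, hz3, hz4, hz5, hz6, hz7, hz8, hz9, hz10]
    unfold mstar
    norm_num
  refine ⟨z, ⟨?_, hsum⟩, ?_⟩
  · rintro (i | k)
    · show 0 ≤ cv i
      fin_cases i
      · exact hc0
      all_goals
        simp only [cv]
        first
        | (show (0:ℝ) ≤ _; norm_num)
        | norm_num
    · show 0 ≤ tstar * (2/7)^(k : ℕ)
      positivity
  · have hf := form_eq hC (n+1) z hsum t ht ht0
    have hPq : Pq (z (Sum.inl 0) + ∑ k ∈ Finset.range (n+1), t k)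
      (z (Sum.inl 1)) (z (Sum.inl 2)) (z (Sum.inl 3)) (z (Sum.inl 4)) (z (Sum.inl 5))
      (z (Sum.inl 6)) (z (Sum.inl 7)) (z (Sum.inl 8)) (z (Sum.inl 9)) (z (Sum.inl 10)) (t 0)
        = nu := by
      have h0 : t 0 = tstar := by simp [t]
      rw [hm, hz1, hz2, hz3, hz4, hz5, hz6, hz7, hz8, hz9, hz10, h0]
      unfold Pq mstar tstar nu
      norm_num
    have hch : ∑ k ∈ Finset.range (n+1), (t (k+1) - 2/7 * t k)^2 =
        (2/7 * (tstar * (2/7)^n))^2 := by
      rw [Finset.sum_range_succ]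
      have h1 : ∑ k ∈ Finset.range n, (t (k+1) - 2/7 * t k)^2 = 0 := by
        refine Finset.sum_eq_zero fun k hk => ?_
        have hk' := Finset.mem_range.mp hk
        simp only [t]
        rw [if_pos (by omega), if_pos (by omega), pow_succ]
        ring
      rw [h1, zero_add]
      simp only [t]
      rw [if_neg (by omega), if_pos (by omega)]
      ring
    rw [hPq, hch] at hf
    have h3 : (49/120 : ℝ) * (2/7 * (tstar * (2/7)^n))^2 ≤ ε := by
      have h4 : (0:ℝ) < (2/7)^n := by positivity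
      have h5 : (2/7 : ℝ)^n ≤ 1 := pow_le_one₀ (by norm_num) (by norm_num)
      have h6 : tstar ≤ 1 := by unfold tstar; norm_num
      have h7 : (2/7 * (tstar * (2/7)^n)) ≤ (2/7 : ℝ)^n := by nlinarith
      have h8 : 0 ≤ (2/7 * (tstar * (2/7)^n)) := by positivity
      have h9 : (2/7 * (tstar * (2/7)^n)) ≤ 1 := h7.trans h5
      nlinarith
    show (1 - nu) - ε ≤ form p0 (T (n+1)) z
    rw [hf]
    linarith

end

end Pool.Agent.H240R3.WT
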