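import Pool.Agent.H240R3.WT.Stmts

namespace Pool.Agent.H240R3.WT

/-- the optimal value `1 - λ_∞` -/
noncomputable def nu : ℝ := (2579128349904763/13273651081915800)

theorem Pq_sos (m c1 c2 c3 c4 c5 c6 c7 c8 c9 c10 t : ℝ) :
    Pq m c1 c2 c3 c4 c5 c6 c7 c8 c9 c10 t =
      (67/120) * (m + (1) * c1 + (53/67) * c2 + (53/67) * c3 + (53/67) * c4 + (53/67) * c5)^2 +
      (53/120) * (c1 + (14/53) * c2 + (-1) * c4 + (-14/53) * t)^2 +
      (88037/142040) * (c2 + (-148877/264111) * c3 + (-99163/264111) * c4 + (39326/264111) * c5 + (188203/264111) * c6 + (62846/264111) * t)^2 +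
      (3594661/7923330) * (c3 + (2465039/14378644) * c4 + (-9424195/14378644) * c5 + (7890481/14378644) * c6 + (188203/1027046) * t)^2 +
      (186774173/1725437280) * (c4 + (5792167/3524041) * c5 + (4009079/3524041) * c6 + (-2459394/3524041) * t)^2 +
      (5270447/35240410) * (c5 + (-3171361/4517526) * c6 + (4733165/4517526) * t)^2 +
      (90761513/271051560) * (c6 + (119714439/90761513) * c7 + (12258953/90761513) * t)^2 +
      (1515505431/3630460520) * (c7 + (4810360189/4546516293) * c8 + (-3755633/26280441) * t)^2 +
      (290632865143/545581955160) * (c8 + (240965363529/290632865143) * c9 + (34435398977/290632865143) * t)^2 +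
      (7368259850041/11625314605720) * (c9 + (15403541852579/22104779550123) * c10 + (-1825076145781/22104779550123) * t)^2 +
      (1836185827828073/2652573546014760) * (c10 + (559127374141/10613790912301) * t)^2 +
      (104357794504817/1273654909476120) * (t)^2 := by
  unfold Pq; ring

theorem Pq_ge (m c1 c2 c3 c4 c5 c6 c7 c8 c9 c10 t : ℝ) :
    (104357794504817/1273654909476120) * t^2 ≤ Pq m c1 c2 c3 c4 c5 c6 c7 c8 c9 c10 t := by
  rw [Pq_sos]
  have h : 0 ≤ (67/120) * (m + (1) * c1 + (53/67) * c2 + (53/67) * c3 + (53/67) * c4 + (53/67) * c5)^2 +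
      (53/120) * (c1 + (14/53) * c2 + (-1) * c4 + (-14/53) * t)^2 +
      (88037/142040) * (c2 + (-148877/264111) * c3 + (-99163/264111) * c4 + (39326/264111) * c5 + (188203/264111) * c6 + (62846/264111) * t)^2 +
      (3594661/7923330) * (c3 + (2465039/14378644) * c4 + (-9424195/14378644) * c5 + (7890481/14378644) * c6 + (188203/1027046) * t)^2 +
      (186774173/1725437280) * (c4 + (5792167/3524041) * c5 + (4009079/3524041) * c6 + (-2459394/3524041) * t)^2 +
      (5270447/35240410) * (c5 + (-3171361/4517526) * c6 + (4733165/4517526) * t)^2 +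
      (90761513/271051560) * (c6 + (119714439/90761513) * c7 + (12258953/90761513) * t)^2 +
      (1515505431/3630460520) * (c7 + (4810360189/4546516293) * c8 + (-3755633/26280441) * t)^2 +
      (290632865143/545581955160) * (c8 + (240965363529/290632865143) * c9 + (34435398977/290632865143) * t)^2 +
      (7368259850041/11625314605720) * (c9 + (15403541852579/22104779550123) * c10 + (-1825076145781/22104779550123) * t)^2 +
      (1836185827828073/2652573546014760) * (c10 + (559127374141/10613790912301) * t)^2 := by positivity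
  linarith

theorem Pq_shift (m c1 c2 c3 c4 c5 c6 c7 c8 c9 c10 t : ℝ) :
    Pq m c1 c2 c3 c4 c5 c6 c7 c8 c9 c10 t =
      nu + 2 * nu * (m + c1 + c2 + c3 + c4 + c5 + c6 + c7 + c8 + c9 + c10 - 1) +
      Pq (m - (13210125809811/110613759015965)) (c1 - (1928850184709/221227518031930)) (c2 - (500432163791/110613759015965)) (c3 - (29279169903471/221227518031930)) (c4 - (2123192772589/221227518031930)) (c5 - (29084827315591/221227518031930)) (c6 - (18523008406881/110613759015965)) (c7 - (1244695986408/22122751803193)) (c8 - (3209778537718/22122751803193)) (c9 - (6102203601431/110613759015965)) (c10 - (18797596325241/110613759015965)) (t - (132569408161/110613759015965)) := by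
  unfold Pq nu; ring

end Pool.Agent.H240R3.WT
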