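import Pool.Agent.H240R3.WT.Main

namespace Pool.Agent.H240R3.WT

open Filter Topology

noncomputable section

theorem wt_le (hB : TaskB) {p : ℝ} (hp0 : 0 ≤ p) (hp1 : p ≤ 1) (G : MG) :
    wt p G ≤ (G.n : ℝ)^2 := by
  classical
  have h := hB p G
  have h2 : ∑ i : Fin G.n, ∑ j : Fin G.n, ((if G.red.Adj i j then p else 0) +
      (if G.blue.Adj i j then 1 - p else 0)) ≤ ∑ i : Fin G.n, ∑ j : Fin G.n, (1 : ℝ) := by
    refine Finset.sum_le_sum fun i _ => Finset.sum_le_sum fun j _ => ?_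
    split_ifs <;> linarith
  simp only [Finset.sum_const, Finset.card_univ, Fintype.card_fin, nsmul_eq_mul, mul_one] at h2
  have h3 : (0 : ℝ) ≤ (G.n : ℝ)^2 := by positivity
  have h4 : 2 * wt p G ≤ (G.n : ℝ)^2 := by
    calc 2 * wt p G = _ := h
      _ ≤ _ := by convert h2 using 1
      _ = _ := by ring
  linarith

theorem ex_bdd (hB : TaskB) {p : ℝ} (hp0 : 0 ≤ p) (hp1 : p ≤ 1) (𝓗 : Set MG) (n : ℕ) :
    BddAbove {x : ℝ | ∃ G : MG, G.n = n ∧ Free 𝓗 G ∧ x = wt p G} := by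
  refine ⟨(n : ℝ)^2, ?_⟩
  rintro x ⟨G, hG, -, rfl⟩
  have := wt_le hB hp0 hp1 G
  rwa [hG] at this

theorem ex_ge (hA : TaskA) (hB : TaskB) {p : ℝ} (hp0 : 0 ≤ p) (hp1 : p ≤ 1) (𝓗 : Set MG)
    (τ : WType) (hτ : TFree 𝓗 τ) (ζ : τ.V → ℝ) (hζ : ζ ∈ stdSimplex ℝ τ.V) (N : ℕ) :
    (N : ℝ) * (N - 1) / 2 * form p τ ζ ≤ ex p 𝓗 N := by
  classical
  obtain ⟨φ, hφ⟩ := hA τ.V (Wm p τ) ζ hζ.1 hζ.2 N
  have hfree : Free 𝓗 (blow τ N φ) := fun H hH hsub => hτ H hH ⟨_, blow_inQ τ N φ, hsub⟩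
  have hwt : (N : ℝ) * (N - 1) / 2 * form p τ ζ ≤ wt p (blow τ N φ) := by
    have h1 := hB p (blow τ N φ)
    have h2 : ∑ i : Fin N, ∑ j : Fin N, (if i = j then 0 else Wm p τ (φ i) (φ j)) =
        2 * wt p (blow τ N φ) := by
      rw [h1]
      change _ = ∑ i : Fin N, ∑ j : Fin N, _
      refine Finset.sum_congr rfl fun i _ => Finset.sum_congr rfl fun j _ => ?_
      by_cases hij : i = j
      · subst hij
        rw [if_pos rfl]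
        have r1 : ¬ (blow τ N φ).red.Adj i i := (blow τ N φ).red.irrefl
        have r2 : ¬ (blow τ N φ).blue.Adj i i := (blow τ N φ).blue.irrefl
        rw [if_neg r1, if_neg r2, add_zero]
      · rw [if_neg hij]
        exact blow_weight p τ N φ i j hij
    have h3 : (N : ℝ) * (N - 1) * form p τ ζ ≤ 2 * wt p (blow τ N φ) := by
      rw [← h2]; exact hφ
    linarith
  exact hwt.trans (le_csSup (ex_bdd hB hp0 hp1 𝓗 N) ⟨_, rfl, hfree, rfl⟩)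

theorem exists_free (hA : TaskA) (𝓗 : Set MG)
    (τ : WType) (hτ : TFree 𝓗 τ) (v : τ.V) (N : ℕ) :
    ∃ G : MG, G.n = N ∧ Free 𝓗 G :=
  ⟨blow τ N (fun _ => v), rfl, fun H hH hsub => hτ H hH ⟨_, blow_inQ τ N _, hsub⟩⟩

theorem lower (hA : TaskA) (hB : TaskB) {p L : ℝ} (hp0 : 0 ≤ p) (hp1 : p ≤ 1) (𝓗 : Set MG)
    (T : ℕ → WType) (hT : ∀ n, TFree 𝓗 (T n))
    (H3 : ∀ ε : ℝ, 0 < ε → ∃ n, ∃ ζ ∈ stdSimplex ℝ (T n).V, L - ε ≤ form p (T n) ζ)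
    (N : ℕ) (hN : 2 ≤ N) : L ≤ ex p 𝓗 N / (N.choose 2 : ℝ) := by
  have hch : ((N.choose 2 : ℕ) : ℝ) = (N : ℝ) * (N - 1) / 2 := Nat.cast_choose_two ℝ N
  have hNR : (2 : ℝ) ≤ N := by exact_mod_cast hN
  have hpos : 0 < (N : ℝ) * (N - 1) / 2 := by
    have : 0 < (N : ℝ) - 1 := by linarith
    positivity
  rw [hch]
  apply le_of_forall_pos_le_add
  intro ε hε
  obtain ⟨n, ζ, hζ, hLε⟩ := H3 ε hε
  have h1 := ex_ge hA hB hp0 hp1 𝓗 (T n) (hT n) ζ hζ N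
  have h2 : form p (T n) ζ ≤ ex p 𝓗 N / ((N : ℝ) * (N - 1) / 2) := by
    rw [le_div_iff₀ hpos]; linarith
  linarith

end

end Pool.Agent.H240R3.WT
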