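import Pool.Agent.H240R3.WT.Upper
import Pool.Agent.H240R3.WT.Lower
import Pool.Agent.H240R3.WT.Concrete

namespace Pool.Agent.H240R3.WT

open Filter Topology

theorem final (hA : TaskA) (hB : TaskB) (hL : TaskL) (hE : TaskE) (hC : TaskC) :
    ∃ 𝓗 : Set MG, 𝓗.Nonempty ∧ (∃ τ, TFree 𝓗 τ) ∧
      ∃ p : ℝ, 0 ≤ p ∧ p ≤ 1 ∧ ∃ μ : ℝ,
        Tendsto (fun n : ℕ => ex p 𝓗 n / (n.choose 2 : ℝ)) atTop (𝓝 μ) ∧
        ∀ τ : WType, TFree 𝓗 τ → lam p τ < μ := by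
  let 𝓗 : Set MG := {H | ∀ n, ¬ Colourable (T n) H}
  have hT : ∀ n, TFree 𝓗 (T n) := fun n H hH => hH n
  have hp0 : (0 : ℝ) ≤ p0 := by unfold p0; norm_num
  have hp1 : p0 ≤ 1 := by unfold p0; norm_num
  have hL0 : 0 < 1 - nu := by unfold nu; norm_num
  obtain ⟨μ, hμ⟩ := hL p0 hp0 hp1 𝓗
    (fun n => exists_free hA 𝓗 (T 0) (hT 0) (Sum.inl 0 : Fin 11 ⊕ Fin 0) n)
  refine ⟨𝓗, ?_, ⟨T 0, hT 0⟩, p0, hp0, hp1, μ, hμ, ?_⟩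
  · obtain ⟨H, hH⟩ := hE
    exact ⟨H, hH⟩
  · intro τ hτ
    have h1 : lam p0 τ < 1 - nu :=
      main_upper hA p0 (1 - nu) hp0 hp1 hL0 (53/120) (by norm_num) T
        (fun n ζ hζ => H1c hC n ζ hζ) (fun K => H2c hC K) τ hτ
    have h2 : 1 - nu ≤ μ := by
      refine ge_of_tendsto hμ ?_
      filter_upwards [eventually_ge_atTop 2] with N hN
      exact lower hA hB hp0 hp1 𝓗 T hT (fun ε hε => H3c hC ε hε) N hN
    exact lt_of_lt_of_le h1 h2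

end Pool.Agent.H240R3.WT
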