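import Mathlib

/-!
Definitions for MP_ee7c95_co (2-coloured multigraphs, weak types) and task statements.
-/

namespace Pool.Agent.H240R3.WT

open Filter Topology

noncomputable section

/-- A 2-coloured multigraph on the vertex set `Fin n`. -/
structure MG where
  n : ℕ
  red : SimpleGraph (Fin n)
  blue : SimpleGraph (Fin n)

/-- `H ⊂ G`. -/
def Sub (H G : MG) : Prop :=
  ∃ f : Fin H.n → Fin G.n, Function.Injective f ∧
    (∀ i j, H.red.Adj i j → G.red.Adj (f i) (f j)) ∧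
    (∀ i j, H.blue.Adj i j → G.blue.Adj (f i) (f j))

/-- `w_p(G) = p e(G_r) + q e(G_b)`. -/
def wt (p : ℝ) (G : MG) : ℝ :=
  p * (G.red.edgeSet.ncard : ℝ) + (1 - p) * (G.blue.edgeSet.ncard : ℝ)

/-- `G` contains no member of `𝓗`. -/
def Free (𝓗 : Set MG) (G : MG) : Prop := ∀ H ∈ 𝓗, ¬ Sub H G

/-- `ex_p(𝓗, n)`. -/
def ex (p : ℝ) (𝓗 : Set MG) (n : ℕ) : ℝ :=
  sSup {x : ℝ | ∃ G : MG, G.n = n ∧ Free 𝓗 G ∧ x = wt p G}

/-- Vertex colours of a weak type. -/
inductive VC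
  | red | blue | white

/-- Edge colours of a weak type. -/
inductive EC
  | red | blue | green | white

/-- A weak type. -/
structure WType where
  V : Type
  ft : Fintype V
  vc : V → VC
  ec : V → V → EC
  symm : ∀ u v, ec u v = ec v u

instance (τ : WType) : Fintype τ.V := τ.ft

/-- the pair `ij` of `G` has exactly the vertex colour (white = no edge) -/
def PairV (G : MG) (i j : Fin G.n) : VC → Prop
  | VC.red => G.red.Adj i j ∧ ¬ G.blue.Adj i j
  | VC.blue => ¬ G.red.Adj i j ∧ G.blue.Adj i j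
  | VC.white => ¬ G.red.Adj i j ∧ ¬ G.blue.Adj i j

/-- the pair `ij` of `G` is compatible with the edge colour -/
def PairE (G : MG) (i j : Fin G.n) : EC → Prop
  | EC.red => G.red.Adj i j ∧ ¬ G.blue.Adj i j
  | EC.blue => ¬ G.red.Adj i j ∧ G.blue.Adj i j
  | EC.white => ¬ G.red.Adj i j ∧ ¬ G.blue.Adj i j
  | EC.green => True

/-- `G ∈ 𝓠(τ)`. -/
def InQ (τ : WType) (G : MG) : Prop :=
  ∃ φ : Fin G.n → τ.V, ∀ i j, i ≠ j →
    (φ i = φ j → PairV G i j (τ.vc (φ i))) ∧ (φ i ≠ φ j → PairE G i j (τ.ec (φ i) (φ j)))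

/-- `H` is `τ`-colourable. -/
def Colourable (τ : WType) (H : MG) : Prop := ∃ G, InQ τ G ∧ Sub H G

/-- No member of `𝓗` is `τ`-colourable. -/
def TFree (𝓗 : Set MG) (τ : WType) : Prop := ∀ H ∈ 𝓗, ¬ Colourable τ H

/-- weights of vertex colours -/
def wV (p : ℝ) : VC → ℝ
  | VC.red => p
  | VC.blue => 1 - p
  | VC.white => 0

/-- weights of edge colours -/
def wE (p : ℝ) : EC → ℝ
  | EC.white => 0
  | EC.red => p
  | EC.blue => 1 - p
  | EC.green => 1

open Classical in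
/-- The matrix `W_p(τ)`. -/
def Wm (p : ℝ) (τ : WType) (u v : τ.V) : ℝ :=
  if u = v then wV p (τ.vc u) else wE p (τ.ec u v)

/-- `zᵗ W_p(τ) z`. -/
def form (p : ℝ) (τ : WType) (z : τ.V → ℝ) : ℝ := ∑ u, ∑ v, z u * z v * Wm p τ u v

/-- `λ_p(τ)`. -/
def lam (p : ℝ) (τ : WType) : ℝ := sSup (form p τ '' stdSimplex ℝ τ.V)

/-! ### tasks -/

/-- Task A: random blow-up, abstract form (first moment). -/
def TaskA : Prop := ∀ (V : Type) [Fintype V] (W : V → V → ℝ) (z : V → ℝ), (∀ v, 0 ≤ z v) →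
  ∑ v, z v = 1 → ∀ N : ℕ, ∃ φ : Fin N → V,
    (N : ℝ) * (N - 1) * (∑ u, ∑ v, z u * z v * W u v) ≤
      ∑ i, ∑ j, (if i = j then 0 else W (φ i) (φ j))

open Classical in
/-- Task B: weight as a sum over ordered pairs. -/
def TaskB : Prop := ∀ (p : ℝ) (G : MG), 2 * wt p G =
  ∑ i, ∑ j, ((if G.red.Adj i j then p else 0) + (if G.blue.Adj i j then 1 - p else 0))

/-- Task L: the limit exists and is a lower bound of the densities (Katona–Nemetz–Simonovits
averaging). -/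
def TaskL : Prop := ∀ (p : ℝ), 0 ≤ p → p ≤ 1 → ∀ 𝓗 : Set MG,
  (∀ n, ∃ G : MG, G.n = n ∧ Free 𝓗 G) →
  ∃ μ : ℝ, Tendsto (fun n : ℕ => ex p 𝓗 n / (n.choose 2 : ℝ)) atTop (𝓝 μ)

/-- core edge colours (11 vertices, everything not listed is green) -/
def coreEC (i j : ℕ) : EC :=
  match i, j with
  | 0, 1 => EC.red | 1, 0 => EC.red
  | 0, 2 => EC.blue | 2, 0 => EC.blue
  | 0, 3 => EC.blue | 3, 0 => EC.blue
  | 0, 4 => EC.blue | 4, 0 => EC.blue
  | 0, 5 => EC.blue | 5, 0 => EC.blue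
  | 1, 2 => EC.red | 2, 1 => EC.red
  | 1, 3 => EC.blue | 3, 1 => EC.blue
  | 1, 5 => EC.blue | 5, 1 => EC.blue
  | 2, 5 => EC.blue | 5, 2 => EC.blue
  | 3, 4 => EC.red | 4, 3 => EC.red
  | 4, 5 => EC.blue | 5, 4 => EC.blue
  | 2, 6 => EC.blue | 6, 2 => EC.blue
  | 6, 7 => EC.blue | 7, 6 => EC.blue
  | 7, 8 => EC.blue | 8, 7 => EC.blue
  | 8, 9 => EC.blue | 9, 8 => EC.blue
  | 9, 10 => EC.blue | 10, 9 => EC.blue
  | _, _ => EC.green

/-- colour of the edge between core vertex `i` and chain vertex `k` -/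
def mixEC (i k : ℕ) : EC :=
  match i, k with
  | 0, _ => EC.red
  | 1, 0 => EC.blue
  | 1, _ => EC.red
  | 2, 0 => EC.red
  | 2, _ => EC.blue
  | 3, _ => EC.blue
  | 4, _ => EC.blue
  | 5, _ => EC.blue
  | _, _ => EC.green

/-- colour of the edge between chain vertices `k`, `l` -/
def chainEC (k l : ℕ) : EC := if k + 1 = l ∨ l + 1 = k then EC.blue else EC.red

/-- the weak types `τ_n` -/
def T (n : ℕ) : WType where
  V := Fin 11 ⊕ Fin n
  ft := inferInstance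
  vc := fun v => match v with
    | Sum.inl i => if i = 0 then VC.red else VC.white
    | Sum.inr _ => VC.white
  ec := fun u v => match u, v with
    | Sum.inl i, Sum.inl j => coreEC i.val j.val
    | Sum.inl i, Sum.inr k => mixEC i.val k.val
    | Sum.inr k, Sum.inl i => mixEC i.val k.val
    | Sum.inr k, Sum.inr l => chainEC k.val l.val
  symm := by
    rintro (i | k) (j | l)
    · fin_cases i <;> fin_cases j <;> rfl
    · rfl
    · rfl
    · simp only [chainEC]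
      congr 1
      exact propext or_comm

/-- the value of `p` -/
def p0 : ℝ := 53 / 120

/-- Task E: some multigraph (e.g. the complete green one on 13 vertices) is not `T n`-colourable
for any `n`. -/
def TaskE : Prop := ∃ H : MG, ∀ n, ¬ Colourable (T n) H

/-- Task C: the form of `T n` written with `c : Fin 11 → ℝ` and the chain weights `t`,
`s = ∑ t`; here `m = c 0 + s`. -/
def TaskC : Prop := ∀ (n : ℕ) (z : (Fin 11 ⊕ Fin n) → ℝ), ∀ (t : ℕ → ℝ),
  (∀ k : Fin n, t k = z (Sum.inr k)) → (∀ k, n ≤ k → t k = 0) →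
  ∑ v, z v = 1 →
  form p0 (T n) z = 1 - (
    (let m := z (Sum.inl 0) + ∑ k ∈ Finset.range n, t k
     let c : ℕ → ℝ := fun i => if h : i < 11 then z (Sum.inl ⟨i, h⟩) else 0
     67/120 * m^2 + c 1^2 + c 2^2 + c 3^2 + c 4^2 + c 5^2 + c 6^2 + c 7^2 + c 8^2 + c 9^2 + c 10^2
     + 2 * (67/120) * (m * c 1 + c 1 * c 2 + c 3 * c 4)
     + 2 * (53/120) * (m * c 2 + m * c 3 + m * c 4 + m * c 5 + c 1 * c 3 + c 1 * c 5
        + c 2 * c 5 + c 4 * c 5 + c 2 * c 6 + c 6 * c 7 + c 7 * c 8 + c 8 * c 9 + c 9 * c 10)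
     + 2 * (14/120) * (c 2 - c 1) * t 0
     + (49/120) * t 0 ^2)
    + (49/120) * ∑ k ∈ Finset.range n, (t (k+1) - 2/7 * t k)^2)

/-- The quadratic form of the effective core in the 12 variables -/
def Pq (m c1 c2 c3 c4 c5 c6 c7 c8 c9 c10 t : ℝ) : ℝ :=
    67/120 * m^2 + c1^2 + c2^2 + c3^2 + c4^2 + c5^2 + c6^2 + c7^2 + c8^2 + c9^2 + c10^2
     + 2 * (67/120) * (m * c1 + c1 * c2 + c3 * c4)
     + 2 * (53/120) * (m * c2 + m * c3 + m * c4 + m * c5 + c1 * c3 + c1 * c5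
        + c2 * c5 + c4 * c5 + c2 * c6 + c6 * c7 + c7 * c8 + c8 * c9 + c9 * c10)
     + 2 * (14/120) * (c2 - c1) * t
     + (49/120) * t^2

end

end Pool.Agent.H240R3.WT
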