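import Pool.Agent.H240R3.WT.Stmts

/-!
Task L of project WT: the limit of `ex p 𝓗 n / C(n,2)` exists.
-/

namespace Pool.Agent.H240R3.WT

open Filter Topology

noncomputable section

/-- the weight of an ordered pair -/
def Wp (p : ℝ) (G : MG) (i j : Fin G.n) : ℝ :=
  open Classical in
  ((if G.red.Adj i j then p else 0) + (if G.blue.Adj i j then 1 - p else 0))

/-- vertex deletion -/
def del (n : ℕ) (r b : SimpleGraph (Fin (n + 1))) (v : Fin (n + 1)) : MG :=
  ⟨n, r.comap v.succAbove, b.comap v.succAbove⟩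

lemma free_del (𝓗 : Set MG) (n : ℕ) (r b : SimpleGraph (Fin (n + 1))) (v : Fin (n + 1))
    (h : Free 𝓗 ⟨n + 1, r, b⟩) : Free 𝓗 (del n r b v) := by
  intro H hH hs
  obtain ⟨f, hf, h1, h2⟩ := hs
  refine h H hH ⟨fun i => v.succAbove (f i), ?_, ?_, ?_⟩
  · intro i j hij
    exact hf (Fin.succAbove_right_injective hij)
  · intro i j hij
    exact h1 i j hij
  · intro i j hij
    exact h2 i j hij

lemma sum_del (n : ℕ) (f : Fin (n + 1) → Fin (n + 1) → ℝ) (h0 : ∀ v, f v v = 0) :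
    ∑ v : Fin (n + 1), ∑ i : Fin n, ∑ j : Fin n, f (v.succAbove i) (v.succAbove j) =
      ((n : ℝ) - 1) * ∑ i, ∑ j, f i j := by
  have h1 : ∀ v : Fin (n + 1), ∑ i : Fin n, ∑ j : Fin n, f (v.succAbove i) (v.succAbove j) =
      ∑ i, ∑ j, f i j - ∑ i, f i v - ∑ j, f v j := by
    intro v
    have h2 : ∀ i : Fin n, ∑ j : Fin n, f (v.succAbove i) (v.succAbove j) =
        (fun i' => ∑ j, f i' j - f i' v) (v.succAbove i) := by
      intro i
      simp only
      rw [Fin.sum_univ_succAbove (fun j => f (v.succAbove i) j) v]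
      ring
    rw [Finset.sum_congr rfl (fun i _ => h2 i)]
    have h3 := Fin.sum_univ_succAbove (fun i' => ∑ j, f i' j - f i' v) v
    have h4 : ∑ i : Fin n, (fun i' => ∑ j, f i' j - f i' v) (v.succAbove i) =
        ∑ i', (∑ j, f i' j - f i' v) - (∑ j, f v j - f v v) := by
      rw [h3]; ring
    rw [h4, Finset.sum_sub_distrib, h0 v]
    ring
  rw [Finset.sum_congr rfl (fun v _ => h1 v), Finset.sum_sub_distrib, Finset.sum_sub_distrib,
    Finset.sum_const, Finset.card_univ, Fintype.card_fin, nsmul_eq_mul,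
    Finset.sum_comm (f := fun v i => f i v)]
  push_cast
  ring

theorem taskL (hB : TaskB) : TaskL := by
  classical
  intro p hp0 hp1 𝓗 hne
  have hW : ∀ G : MG, 2 * wt p G = ∑ i, ∑ j, Wp p G i j := fun G => hB p G
  have hW0 : ∀ (G : MG) i j, 0 ≤ Wp p G i j := by
    intro G i j
    unfold Wp
    have : 0 ≤ 1 - p := by linarith
    split_ifs <;> linarith
  have hW1 : ∀ (G : MG) i j, Wp p G i j ≤ 1 := by
    intro G i j
    unfold Wp
    split_ifs <;> linarith
  have hdiag : ∀ (G : MG) i, Wp p G i i = 0 := by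
    intro G i
    unfold Wp
    rw [if_neg (G.red.loopless.irrefl i), if_neg (G.blue.loopless.irrefl i)]
    ring
  have wt0 : ∀ G : MG, 0 ≤ wt p G := by
    intro G
    have h1 := hW G
    have h2 : 0 ≤ ∑ i, ∑ j, Wp p G i j :=
      Finset.sum_nonneg (fun i _ => Finset.sum_nonneg (fun j _ => hW0 G i j))
    linarith
  have wt1 : ∀ G : MG, wt p G ≤ (G.n : ℝ) * G.n := by
    intro G
    have h1 := hW G
    have h2 : ∑ i, ∑ j, Wp p G i j ≤ ∑ i : Fin G.n, ∑ j : Fin G.n, (1 : ℝ) :=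
      Finset.sum_le_sum (fun i _ => Finset.sum_le_sum (fun j _ => hW1 G i j))
    simp only [Finset.sum_const, Finset.card_univ, Fintype.card_fin, nsmul_eq_mul, mul_one] at h2
    have h3 := wt0 G
    linarith
  have hbdd : ∀ n, BddAbove {x : ℝ | ∃ G : MG, G.n = n ∧ Free 𝓗 G ∧ x = wt p G} := by
    intro n
    refine ⟨(n : ℝ) * n, ?_⟩
    rintro x ⟨G, rfl, -, rfl⟩
    exact wt1 G
  have hex0 : ∀ n, 0 ≤ ex p 𝓗 n := by
    intro n
    apply Real.sSup_nonneg
    rintro x ⟨G, -, -, rfl⟩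
    exact wt0 G
  -- the averaging step
  have hstep : ∀ n : ℕ, ((n : ℝ) - 1) * ex p 𝓗 (n + 1) ≤ ((n : ℝ) + 1) * ex p 𝓗 n ∨ n < 2 := by
    intro n
    rcases Nat.lt_or_ge n 2 with hn | hn
    · exact Or.inr hn
    left
    have hn' : (0 : ℝ) < (n : ℝ) - 1 := by
      have : (2 : ℝ) ≤ n := by exact_mod_cast hn
      linarith
    have hle : ex p 𝓗 (n + 1) ≤ (((n : ℝ) + 1) * ex p 𝓗 n) / ((n : ℝ) - 1) := by
      apply csSup_le
      · obtain ⟨G, h1, h2⟩ := hne (n + 1)
        exact ⟨wt p G, G, h1, h2, rfl⟩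
      · rintro x ⟨G, hGn, hfree, rfl⟩
        obtain ⟨m, r, b⟩ := G
        simp only at hGn
        subst hGn
        rw [le_div_iff₀ hn']
        have h1 := sum_del n (Wp p ⟨n + 1, r, b⟩) (hdiag ⟨n + 1, r, b⟩)
        have h2 : ∀ v : Fin (n + 1), ∑ i : Fin n, ∑ j : Fin n,
            Wp p ⟨n + 1, r, b⟩ (v.succAbove i) (v.succAbove j) = 2 * wt p (del n r b v) := by
          intro v
          rw [hW (del n r b v)]
          rfl
        have h3 : ∀ v : Fin (n + 1), wt p (del n r b v) ≤ ex p 𝓗 n := by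
          intro v
          exact le_csSup (hbdd n) ⟨del n r b v, rfl, free_del 𝓗 n r b v hfree, rfl⟩
        rw [Finset.sum_congr rfl (fun v _ => h2 v)] at h1
        have h4 : ∑ v : Fin (n + 1), 2 * wt p (del n r b v) ≤
            ∑ v : Fin (n + 1), 2 * ex p 𝓗 n :=
          Finset.sum_le_sum (fun v _ => by have := h3 v; linarith)
        rw [Finset.sum_const, Finset.card_univ, Fintype.card_fin, nsmul_eq_mul] at h4
        push_cast at h4
        have h5 := hW ⟨n + 1, r, b⟩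
        rw [← h5] at h1
        nlinarith [h1, h4]
    have := (le_div_iff₀ hn').1 hle
    linarith
  have hanti : Antitone (fun n : ℕ => ex p 𝓗 (n + 2) / ((n + 2).choose 2 : ℝ)) := by
    apply antitone_nat_of_succ_le
    intro n
    have h1 := (hstep (n + 2)).resolve_right (by omega)
    have h2 := hex0 (n + 2)
    have h3 := hex0 (n + 2 + 1)
    rw [show n + 1 + 2 = n + 2 + 1 by ring, Nat.cast_choose_two, Nat.cast_choose_two]
    push_cast at h1 ⊢
    have hn : (0 : ℝ) ≤ n := Nat.cast_nonneg n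
    have g1 : (0 : ℝ) < ((n : ℝ) + 2) * ((n : ℝ) + 2 - 1) / 2 := by
      have : (0 : ℝ) < (n : ℝ) + 2 - 1 := by linarith
      positivity
    have g2 : (0 : ℝ) < ((n : ℝ) + 2 + 1) * ((n : ℝ) + 2 + 1 - 1) / 2 := by
      have : (0 : ℝ) < (n : ℝ) + 2 + 1 - 1 := by linarith
      positivity
    rw [div_le_div_iff₀ g2 g1]
    have h5 : (0 : ℝ) ≤ ((n : ℝ) + 2) / 2 := by positivity
    have h6 := mul_le_mul_of_nonneg_left h1 h5
    nlinarith [h6]
  have hb : BddBelow (Set.range (fun n : ℕ => ex p 𝓗 (n + 2) / ((n + 2).choose 2 : ℝ))) := by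
    refine ⟨0, ?_⟩
    rintro x ⟨n, rfl⟩
    exact div_nonneg (hex0 _) (Nat.cast_nonneg _)
  have hlim := tendsto_atTop_ciInf hanti hb
  exact ⟨_, (tendsto_add_atTop_iff_nat (f := fun n : ℕ => ex p 𝓗 n / (n.choose 2 : ℝ)) 2).1 hlim⟩

end

end Pool.Agent.H240R3.WT
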