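import Pool.Agent.H240R3.WT.Stmts

namespace Pool.Agent.H240R3.WT

open Filter Topology

noncomputable section

theorem chain_w (k l : ℕ) (h : k ≠ l) : wE p0 (chainEC k l) =
    53/120 + (14/120) * (if k + 1 = l then 1 else 0) + (14/120) * (if l + 1 = k then 1 else 0) := by
  unfold chainEC
  by_cases h1 : k + 1 = l
  · have h2 : ¬ (l + 1 = k) := by omega
    simp [h1, h2, wE, p0]; norm_num
  · by_cases h2 : l + 1 = k
    · simp [h1, h2, wE, p0]; norm_num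
    · simp [h1, h2, wE, p0]

theorem chain_sum (n : ℕ) (t : ℕ → ℝ) (ht0 : ∀ k, n ≤ k → t k = 0) :
    ∑ k ∈ Finset.range n, ∑ l ∈ Finset.range n,
      t k * t l * (if k = l then 0 else wE p0 (chainEC k l)) =
    (53/120) * (∑ k ∈ Finset.range n, t k)^2 - (53/120) * ∑ k ∈ Finset.range n, (t k)^2
      + 2 * (14/120) * ∑ k ∈ Finset.range n, t k * t (k+1) := by
  have h1 : ∀ k l, (if k = l then (0:ℝ) else wE p0 (chainEC k l)) =
      53/120 - (if k = l then 53/120 else 0) + (14/120) * (if k + 1 = l then 1 else 0)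
        + (14/120) * (if l + 1 = k then 1 else 0) := by
    intro k l
    by_cases h : k = l
    · subst h; simp
    · rw [if_neg h, if_neg h, chain_w k l h]; ring
  simp_rw [h1]
  have h2 : ∀ k l, t k * t l * (53/120 - (if k = l then (53/120:ℝ) else 0) +
      (14/120) * (if k + 1 = l then 1 else 0) + (14/120) * (if l + 1 = k then 1 else 0)) =
      (53/120) * (t k * t l) - (53/120) * (if k = l then t k * t l else 0) +
      (14/120) * (if k + 1 = l then t k * t l else 0) +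
      (14/120) * (if l + 1 = k then t k * t l else 0) := by
    intro k l
    split_ifs <;> ring
  simp_rw [h2]
  simp only [Finset.sum_add_distrib, Finset.sum_sub_distrib, ← Finset.mul_sum]
  have e1 : ∑ k ∈ Finset.range n, ∑ l ∈ Finset.range n, (if k = l then t k * t l else 0) =
      ∑ k ∈ Finset.range n, (t k)^2 := by
    refine Finset.sum_congr rfl fun k hk => ?_
    rw [Finset.sum_ite_eq]
    simp [Finset.mem_range.mp hk, sq]
  have e2 : ∑ k ∈ Finset.range n, ∑ l ∈ Finset.range n, (if k + 1 = l then t k * t l else 0) =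
      ∑ k ∈ Finset.range n, t k * t (k+1) := by
    refine Finset.sum_congr rfl fun k hk => ?_
    rw [Finset.sum_ite_eq]
    by_cases h : k + 1 < n
    · simp [h]
    · rw [if_neg (by simpa using h), ht0 (k+1) (by omega)]; ring
  have e3 : ∑ k ∈ Finset.range n, ∑ l ∈ Finset.range n, (if l + 1 = k then t k * t l else 0) =
      ∑ k ∈ Finset.range n, t k * t (k+1) := by
    rw [Finset.sum_comm, ← e2]
    refine Finset.sum_congr rfl fun k hk => Finset.sum_congr rfl fun l hl => ?_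
    split_ifs <;> ring
  have e4 : ∑ k ∈ Finset.range n, t k * ∑ l ∈ Finset.range n, t l =
      (∑ k ∈ Finset.range n, t k)^2 := by
    rw [← Finset.sum_mul, sq]
  rw [e1, e2, e3, e4]
  ring

theorem sos_chain (n : ℕ) (t : ℕ → ℝ) (ht0 : ∀ k, n ≤ k → t k = 0) :
    (49/120) * ∑ k ∈ Finset.range n, (t (k+1) - 2/7 * t k)^2 =
    (53/120) * ∑ k ∈ Finset.range n, (t k)^2 - 2 * (14/120) * ∑ k ∈ Finset.range n, t k * t (k+1)
      - (49/120) * (t 0)^2 := by
  have h1 : ∑ k ∈ Finset.range n, (t (k+1))^2 = ∑ k ∈ Finset.range n, (t k)^2 - (t 0)^2 := by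
    have h2 := Finset.sum_range_succ' (fun k => (t k)^2) n
    have h3 := Finset.sum_range_succ (fun k => (t k)^2) n
    rw [ht0 n le_rfl] at h3
    linarith
  have h4 : ∀ k, (t (k+1) - 2/7 * t k)^2 = (t (k+1))^2 - (4/7) * (t k * t (k+1)) + (4/49) * (t k)^2 := by
    intro k; ring
  simp_rw [h4]
  rw [Finset.sum_add_distrib, Finset.sum_sub_distrib, ← Finset.mul_sum, ← Finset.mul_sum, h1]
  ring

/-- coefficient of `s` in the mixed part -/
def mixa (i : Fin 11) : ℝ := ![53/120, 53/120, 67/120, 67/120, 67/120, 67/120, 1, 1, 1, 1, 1] i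
/-- coefficient of `t 0` in the mixed part -/
def mixb (i : Fin 11) : ℝ := ![0, 14/120, -(14/120), 0, 0, 0, 0, 0, 0, 0, 0] i

theorem mix_w (i : Fin 11) (k : ℕ) : wE p0 (mixEC i k) = mixa i + mixb i * (if k = 0 then 1 else 0) := by
  rcases Nat.eq_zero_or_pos k with rfl | hk
  · fin_cases i <;> simp [mixEC, wE, p0, mixa, mixb] <;> norm_num
  · obtain ⟨k, rfl⟩ : ∃ k', k = k' + 1 := ⟨k - 1, by omega⟩
    fin_cases i <;> simp [mixEC, wE, p0, mixa, mixb] <;> norm_num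

theorem mix_sum (n : ℕ) (t : ℕ → ℝ) (ht0 : ∀ k, n ≤ k → t k = 0) (i : Fin 11) :
    ∑ k ∈ Finset.range n, t k * wE p0 (mixEC i k) =
      mixa i * (∑ k ∈ Finset.range n, t k) + mixb i * t 0 := by
  simp_rw [mix_w]
  have h : ∀ k, t k * (mixa i + mixb i * (if k = 0 then 1 else 0)) =
      mixa i * t k + mixb i * (if k = 0 then t k else 0) := by
    intro k; split_ifs <;> ring
  simp_rw [h]
  rw [Finset.sum_add_distrib, ← Finset.mul_sum, ← Finset.mul_sum, Finset.sum_ite_eq']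
  by_cases hn : 0 < n
  · simp [hn]
  · have : n = 0 := by omega
    subst this
    simp [ht0 0 le_rfl]

/-- core weights -/
def coreW (i j : Fin 11) : ℝ :=
  if i = j then (if i = 0 then 53/120 else 0) else wE p0 (coreEC i.val j.val)

theorem cw_0_0 : coreW 0 0 = 53/120 := by simp [coreW]
theorem cw_0_1 : coreW 0 1 = 53/120 := by simp [coreW, coreEC, wE, p0]
theorem cw_0_2 : coreW 0 2 = 67/120 := by simp [coreW, coreEC, wE, p0]; norm_num
theorem cw_0_3 : coreW 0 3 = 67/120 := by simp [coreW, coreEC, wE, p0]; norm_num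
theorem cw_0_4 : coreW 0 4 = 67/120 := by simp [coreW, coreEC, wE, p0]; norm_num
theorem cw_0_5 : coreW 0 5 = 67/120 := by simp [coreW, coreEC, wE, p0]; norm_num
theorem cw_0_6 : coreW 0 6 = 1 := by simp [coreW, coreEC, wE]
theorem cw_0_7 : coreW 0 7 = 1 := by simp [coreW, coreEC, wE]
theorem cw_0_8 : coreW 0 8 = 1 := by simp [coreW, coreEC, wE]
theorem cw_0_9 : coreW 0 9 = 1 := by simp [coreW, coreEC, wE]
theorem cw_0_10 : coreW 0 10 = 1 := by simp [coreW, coreEC, wE]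
theorem cw_1_0 : coreW 1 0 = 53/120 := by simp [coreW, coreEC, wE, p0]
theorem cw_1_1 : coreW 1 1 = 0 := by simp [coreW]
theorem cw_1_2 : coreW 1 2 = 53/120 := by simp [coreW, coreEC, wE, p0]
theorem cw_1_3 : coreW 1 3 = 67/120 := by simp [coreW, coreEC, wE, p0]; norm_num
theorem cw_1_4 : coreW 1 4 = 1 := by simp [coreW, coreEC, wE]
theorem cw_1_5 : coreW 1 5 = 67/120 := by simp [coreW, coreEC, wE, p0]; norm_num
theorem cw_1_6 : coreW 1 6 = 1 := by simp [coreW, coreEC, wE]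
theorem cw_1_7 : coreW 1 7 = 1 := by simp [coreW, coreEC, wE]
theorem cw_1_8 : coreW 1 8 = 1 := by simp [coreW, coreEC, wE]
theorem cw_1_9 : coreW 1 9 = 1 := by simp [coreW, coreEC, wE]
theorem cw_1_10 : coreW 1 10 = 1 := by simp [coreW, coreEC, wE]
theorem cw_2_0 : coreW 2 0 = 67/120 := by simp [coreW, coreEC, wE, p0]; norm_num
theorem cw_2_1 : coreW 2 1 = 53/120 := by simp [coreW, coreEC, wE, p0]
theorem cw_2_2 : coreW 2 2 = 0 := by simp [coreW]
theorem cw_2_3 : coreW 2 3 = 1 := by simp [coreW, coreEC, wE]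
theorem cw_2_4 : coreW 2 4 = 1 := by simp [coreW, coreEC, wE]
theorem cw_2_5 : coreW 2 5 = 67/120 := by simp [coreW, coreEC, wE, p0]; norm_num
theorem cw_2_6 : coreW 2 6 = 67/120 := by simp [coreW, coreEC, wE, p0]; norm_num
theorem cw_2_7 : coreW 2 7 = 1 := by simp [coreW, coreEC, wE]
theorem cw_2_8 : coreW 2 8 = 1 := by simp [coreW, coreEC, wE]
theorem cw_2_9 : coreW 2 9 = 1 := by simp [coreW, coreEC, wE]
theorem cw_2_10 : coreW 2 10 = 1 := by simp [coreW, coreEC, wE]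
theorem cw_3_0 : coreW 3 0 = 67/120 := by simp [coreW, coreEC, wE, p0]; norm_num
theorem cw_3_1 : coreW 3 1 = 67/120 := by simp [coreW, coreEC, wE, p0]; norm_num
theorem cw_3_2 : coreW 3 2 = 1 := by simp [coreW, coreEC, wE]
theorem cw_3_3 : coreW 3 3 = 0 := by simp [coreW]
theorem cw_3_4 : coreW 3 4 = 53/120 := by simp [coreW, coreEC, wE, p0]
theorem cw_3_5 : coreW 3 5 = 1 := by simp [coreW, coreEC, wE]
theorem cw_3_6 : coreW 3 6 = 1 := by simp [coreW, coreEC, wE]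
theorem cw_3_7 : coreW 3 7 = 1 := by simp [coreW, coreEC, wE]
theorem cw_3_8 : coreW 3 8 = 1 := by simp [coreW, coreEC, wE]
theorem cw_3_9 : coreW 3 9 = 1 := by simp [coreW, coreEC, wE]
theorem cw_3_10 : coreW 3 10 = 1 := by simp [coreW, coreEC, wE]
theorem cw_4_0 : coreW 4 0 = 67/120 := by simp [coreW, coreEC, wE, p0]; norm_num
theorem cw_4_1 : coreW 4 1 = 1 := by simp [coreW, coreEC, wE]
theorem cw_4_2 : coreW 4 2 = 1 := by simp [coreW, coreEC, wE]
theorem cw_4_3 : coreW 4 3 = 53/120 := by simp [coreW, coreEC, wE, p0]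
theorem cw_4_4 : coreW 4 4 = 0 := by simp [coreW]
theorem cw_4_5 : coreW 4 5 = 67/120 := by simp [coreW, coreEC, wE, p0]; norm_num
theorem cw_4_6 : coreW 4 6 = 1 := by simp [coreW, coreEC, wE]
theorem cw_4_7 : coreW 4 7 = 1 := by simp [coreW, coreEC, wE]
theorem cw_4_8 : coreW 4 8 = 1 := by simp [coreW, coreEC, wE]
theorem cw_4_9 : coreW 4 9 = 1 := by simp [coreW, coreEC, wE]
theorem cw_4_10 : coreW 4 10 = 1 := by simp [coreW, coreEC, wE]
theorem cw_5_0 : coreW 5 0 = 67/120 := by simp [coreW, coreEC, wE, p0]; norm_num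
theorem cw_5_1 : coreW 5 1 = 67/120 := by simp [coreW, coreEC, wE, p0]; norm_num
theorem cw_5_2 : coreW 5 2 = 67/120 := by simp [coreW, coreEC, wE, p0]; norm_num
theorem cw_5_3 : coreW 5 3 = 1 := by simp [coreW, coreEC, wE]
theorem cw_5_4 : coreW 5 4 = 67/120 := by simp [coreW, coreEC, wE, p0]; norm_num
theorem cw_5_5 : coreW 5 5 = 0 := by simp [coreW]
theorem cw_5_6 : coreW 5 6 = 1 := by simp [coreW, coreEC, wE]
theorem cw_5_7 : coreW 5 7 = 1 := by simp [coreW, coreEC, wE]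
theorem cw_5_8 : coreW 5 8 = 1 := by simp [coreW, coreEC, wE]
theorem cw_5_9 : coreW 5 9 = 1 := by simp [coreW, coreEC, wE]
theorem cw_5_10 : coreW 5 10 = 1 := by simp [coreW, coreEC, wE]
theorem cw_6_0 : coreW 6 0 = 1 := by simp [coreW, coreEC, wE]
theorem cw_6_1 : coreW 6 1 = 1 := by simp [coreW, coreEC, wE]
theorem cw_6_2 : coreW 6 2 = 67/120 := by simp [coreW, coreEC, wE, p0]; norm_num
theorem cw_6_3 : coreW 6 3 = 1 := by simp [coreW, coreEC, wE]
theorem cw_6_4 : coreW 6 4 = 1 := by simp [coreW, coreEC, wE]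
theorem cw_6_5 : coreW 6 5 = 1 := by simp [coreW, coreEC, wE]
theorem cw_6_6 : coreW 6 6 = 0 := by simp [coreW]
theorem cw_6_7 : coreW 6 7 = 67/120 := by simp [coreW, coreEC, wE, p0]; norm_num
theorem cw_6_8 : coreW 6 8 = 1 := by simp [coreW, coreEC, wE]
theorem cw_6_9 : coreW 6 9 = 1 := by simp [coreW, coreEC, wE]
theorem cw_6_10 : coreW 6 10 = 1 := by simp [coreW, coreEC, wE]
theorem cw_7_0 : coreW 7 0 = 1 := by simp [coreW, coreEC, wE]
theorem cw_7_1 : coreW 7 1 = 1 := by simp [coreW, coreEC, wE]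
theorem cw_7_2 : coreW 7 2 = 1 := by simp [coreW, coreEC, wE]
theorem cw_7_3 : coreW 7 3 = 1 := by simp [coreW, coreEC, wE]
theorem cw_7_4 : coreW 7 4 = 1 := by simp [coreW, coreEC, wE]
theorem cw_7_5 : coreW 7 5 = 1 := by simp [coreW, coreEC, wE]
theorem cw_7_6 : coreW 7 6 = 67/120 := by simp [coreW, coreEC, wE, p0]; norm_num
theorem cw_7_7 : coreW 7 7 = 0 := by simp [coreW]
theorem cw_7_8 : coreW 7 8 = 67/120 := by simp [coreW, coreEC, wE, p0]; norm_num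
theorem cw_7_9 : coreW 7 9 = 1 := by simp [coreW, coreEC, wE]
theorem cw_7_10 : coreW 7 10 = 1 := by simp [coreW, coreEC, wE]
theorem cw_8_0 : coreW 8 0 = 1 := by simp [coreW, coreEC, wE]
theorem cw_8_1 : coreW 8 1 = 1 := by simp [coreW, coreEC, wE]
theorem cw_8_2 : coreW 8 2 = 1 := by simp [coreW, coreEC, wE]
theorem cw_8_3 : coreW 8 3 = 1 := by simp [coreW, coreEC, wE]
theorem cw_8_4 : coreW 8 4 = 1 := by simp [coreW, coreEC, wE]
theorem cw_8_5 : coreW 8 5 = 1 := by simp [coreW, coreEC, wE]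
theorem cw_8_6 : coreW 8 6 = 1 := by simp [coreW, coreEC, wE]
theorem cw_8_7 : coreW 8 7 = 67/120 := by simp [coreW, coreEC, wE, p0]; norm_num
theorem cw_8_8 : coreW 8 8 = 0 := by simp [coreW]
theorem cw_8_9 : coreW 8 9 = 67/120 := by simp [coreW, coreEC, wE, p0]; norm_num
theorem cw_8_10 : coreW 8 10 = 1 := by simp [coreW, coreEC, wE]
theorem cw_9_0 : coreW 9 0 = 1 := by simp [coreW, coreEC, wE]
theorem cw_9_1 : coreW 9 1 = 1 := by simp [coreW, coreEC, wE]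
theorem cw_9_2 : coreW 9 2 = 1 := by simp [coreW, coreEC, wE]
theorem cw_9_3 : coreW 9 3 = 1 := by simp [coreW, coreEC, wE]
theorem cw_9_4 : coreW 9 4 = 1 := by simp [coreW, coreEC, wE]
theorem cw_9_5 : coreW 9 5 = 1 := by simp [coreW, coreEC, wE]
theorem cw_9_6 : coreW 9 6 = 1 := by simp [coreW, coreEC, wE]
theorem cw_9_7 : coreW 9 7 = 1 := by simp [coreW, coreEC, wE]
theorem cw_9_8 : coreW 9 8 = 67/120 := by simp [coreW, coreEC, wE, p0]; norm_num
theorem cw_9_9 : coreW 9 9 = 0 := by simp [coreW]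
theorem cw_9_10 : coreW 9 10 = 67/120 := by simp [coreW, coreEC, wE, p0]; norm_num
theorem cw_10_0 : coreW 10 0 = 1 := by simp [coreW, coreEC, wE]
theorem cw_10_1 : coreW 10 1 = 1 := by simp [coreW, coreEC, wE]
theorem cw_10_2 : coreW 10 2 = 1 := by simp [coreW, coreEC, wE]
theorem cw_10_3 : coreW 10 3 = 1 := by simp [coreW, coreEC, wE]
theorem cw_10_4 : coreW 10 4 = 1 := by simp [coreW, coreEC, wE]
theorem cw_10_5 : coreW 10 5 = 1 := by simp [coreW, coreEC, wE]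
theorem cw_10_6 : coreW 10 6 = 1 := by simp [coreW, coreEC, wE]
theorem cw_10_7 : coreW 10 7 = 1 := by simp [coreW, coreEC, wE]
theorem cw_10_8 : coreW 10 8 = 1 := by simp [coreW, coreEC, wE]
theorem cw_10_9 : coreW 10 9 = 67/120 := by simp [coreW, coreEC, wE, p0]; norm_num
theorem cw_10_10 : coreW 10 10 = 0 := by simp [coreW]

theorem sum11 (f : Fin 11 → ℝ) : ∑ i, f i = f 0 + f 1 + f 2 + f 3 + f 4 + f 5 + f 6 + f 7 +
    f 8 + f 9 + f 10 := by
  rw [Fin.sum_univ_succ, Fin.sum_univ_succ, Fin.sum_univ_succ, Fin.sum_univ_eight]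
  change f 0 + (f 1 + (f 2 + (f 3 + f 4 + f 5 + f 6 + f 7 + f 8 + f 9 + f 10))) = _
  ring

theorem core_sum (x : Fin 11 → ℝ) : ∑ i, ∑ j, x i * x j * coreW i j =
    53/120 * (x 0)^2 +
    2 * (53/120) * (x 0 * x 1 + x 1 * x 2 + x 3 * x 4)
    + 2 * (67/120) * (x 0 * x 2 + x 0 * x 3 + x 0 * x 4 + x 0 * x 5 + x 1 * x 3 + x 1 * x 5
        + x 2 * x 5 + x 4 * x 5 + x 2 * x 6 + x 6 * x 7 + x 7 * x 8 + x 8 * x 9 + x 9 * x 10)
    + 2 * (x 0 * x 6 + x 0 * x 7 + x 0 * x 8 + x 0 * x 9 + x 0 * x 10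
      + x 1 * x 4 + x 1 * x 6 + x 1 * x 7 + x 1 * x 8 + x 1 * x 9 + x 1 * x 10
      + x 2 * x 3 + x 2 * x 4 + x 2 * x 7 + x 2 * x 8 + x 2 * x 9 + x 2 * x 10
      + x 3 * x 5 + x 3 * x 6 + x 3 * x 7 + x 3 * x 8 + x 3 * x 9 + x 3 * x 10
      + x 4 * x 6 + x 4 * x 7 + x 4 * x 8 + x 4 * x 9 + x 4 * x 10
      + x 5 * x 6 + x 5 * x 7 + x 5 * x 8 + x 5 * x 9 + x 5 * x 10
      + x 6 * x 8 + x 6 * x 9 + x 6 * x 10
      + x 7 * x 9 + x 7 * x 10
      + x 8 * x 10) := by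
  have hr : ∀ i : Fin 11, ∑ j, x i * x j * coreW i j = x i * (
      x 0 * coreW i 0 + x 1 * coreW i 1 + x 2 * coreW i 2 + x 3 * coreW i 3 + x 4 * coreW i 4 +
      x 5 * coreW i 5 + x 6 * coreW i 6 + x 7 * coreW i 7 + x 8 * coreW i 8 + x 9 * coreW i 9 +
      x 10 * coreW i 10) := by
    intro i
    rw [sum11]
    ring
  simp_rw [hr]
  rw [sum11]
  simp only [cw_0_0, cw_0_1, cw_0_2, cw_0_3, cw_0_4, cw_0_5, cw_0_6, cw_0_7, cw_0_8, cw_0_9, cw_0_10, cw_1_0, cw_1_1, cw_1_2, cw_1_3, cw_1_4, cw_1_5, cw_1_6, cw_1_7, cw_1_8, cw_1_9, cw_1_10, cw_2_0, cw_2_1, cw_2_2, cw_2_3, cw_2_4, cw_2_5, cw_2_6, cw_2_7, cw_2_8, cw_2_9, cw_2_10, cw_3_0, cw_3_1, cw_3_2, cw_3_3, cw_3_4, cw_3_5, cw_3_6, cw_3_7, cw_3_8, cw_3_9, cw_3_10, cw_4_0, cw_4_1, cw_4_2, cw_4_3, cw_4_4, cw_4_5, cw_4_6, cw_4_7, cw_4_8, cw_4_9, cw_4_10, cw_5_0, cw_5_1, cw_5_2, cw_5_3, cw_5_4, cw_5_5, cw_5_6, cw_5_7, cw_5_8, cw_5_9, cw_5_10, cw_6_0, cw_6_1, cw_6_2,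 cw_6_3, cw_6_4, cw_6_5, cw_6_6, cw_6_7, cw_6_8, cw_6_9, cw_6_10, cw_7_0, cw_7_1, cw_7_2, cw_7_3, cw_7_4, cw_7_5, cw_7_6, cw_7_7, cw_7_8, cw_7_9, cw_7_10, cw_8_0, cw_8_1, cw_8_2, cw_8_3, cw_8_4, cw_8_5, cw_8_6, cw_8_7, cw_8_8, cw_8_9, cw_8_10, cw_9_0, cw_9_1, cw_9_2, cw_9_3, cw_9_4, cw_9_5, cw_9_6, cw_9_7, cw_9_8, cw_9_9, cw_9_10, cw_10_0, cw_10_1, cw_10_2, cw_10_3, cw_10_4, cw_10_5, cw_10_6, cw_10_7, cw_10_8, cw_10_9, cw_10_10]
  ring

open Classical in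
theorem form_split (n : ℕ) (z : (Fin 11 ⊕ Fin n) → ℝ) (t : ℕ → ℝ)
    (ht : ∀ k : Fin n, t k = z (Sum.inr k)) :
    form p0 (T n) z = (∑ i : Fin 11, ∑ j : Fin 11, z (Sum.inl i) * z (Sum.inl j) * coreW i j) +
      2 * (∑ i : Fin 11, z (Sum.inl i) * ∑ k ∈ Finset.range n, t k * wE p0 (mixEC i k)) +
      ∑ k ∈ Finset.range n, ∑ l ∈ Finset.range n,
        t k * t l * (if k = l then 0 else wE p0 (chainEC k l)) := by
  have e : form p0 (T n) z = ∑ u : Fin 11 ⊕ Fin n, ∑ v : Fin 11 ⊕ Fin n,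
      z u * z v * Wm p0 (T n) u v := rfl
  have w1 : ∀ i j : Fin 11, Wm p0 (T n) (Sum.inl i : Fin 11 ⊕ Fin n) (Sum.inl j : Fin 11 ⊕ Fin n) =
      coreW i j := by
    intro i j
    unfold Wm coreW
    by_cases h : i = j
    · subst h
      rw [if_pos rfl, if_pos rfl]
      change wV p0 (if i = 0 then VC.red else VC.white) = _
      split_ifs <;> simp [wV, p0]
    · rw [if_neg h]
      exact if_neg (fun h2 => h (Sum.inl.inj h2))
  have w2 : ∀ (i : Fin 11) (k : Fin n),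
      Wm p0 (T n) (Sum.inl i : Fin 11 ⊕ Fin n) (Sum.inr k : Fin 11 ⊕ Fin n) = wE p0 (mixEC i k) := by
    intro i k
    unfold Wm
    exact if_neg (by intro h; exact Sum.inl_ne_inr h)
  have w3 : ∀ (i : Fin 11) (k : Fin n),
      Wm p0 (T n) (Sum.inr k : Fin 11 ⊕ Fin n) (Sum.inl i : Fin 11 ⊕ Fin n) = wE p0 (mixEC i k) := by
    intro i k
    unfold Wm
    exact if_neg (by intro h; exact Sum.inr_ne_inl h)
  have w4 : ∀ (k l : Fin n),
      Wm p0 (T n) (Sum.inr k : Fin 11 ⊕ Fin n) (Sum.inr l : Fin 11 ⊕ Fin n) =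
        if (k : ℕ) = l then 0 else wE p0 (chainEC k l) := by
    intro k l
    unfold Wm
    by_cases h : (k : ℕ) = l
    · have h' : k = l := Fin.ext h
      subst h'
      rw [if_pos rfl, if_pos rfl]
      rfl
    · rw [if_neg h]
      exact if_neg (fun h2 => h (congrArg Fin.val (Sum.inr.inj h2)))
  rw [e, Fintype.sum_sum_type]
  simp_rw [Fintype.sum_sum_type]
  simp only [w1, w2, w3, w4, ← ht, Finset.sum_add_distrib]
  have c1 : ∑ i : Fin 11, ∑ k : Fin n, z (Sum.inl i) * t k * wE p0 (mixEC i k) =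
      ∑ i : Fin 11, z (Sum.inl i) * ∑ k ∈ Finset.range n, t k * wE p0 (mixEC i k) := by
    refine Finset.sum_congr rfl fun i _ => ?_
    rw [Finset.sum_range, Finset.mul_sum]
    exact Finset.sum_congr rfl fun k _ => by ring
  have c2 : ∑ k : Fin n, ∑ i : Fin 11, t k * z (Sum.inl i) * wE p0 (mixEC i k) =
      ∑ i : Fin 11, z (Sum.inl i) * ∑ k ∈ Finset.range n, t k * wE p0 (mixEC i k) := by
    rw [Finset.sum_comm, ← c1]
    exact Finset.sum_congr rfl fun i _ => Finset.sum_congr rfl fun k _ => by ring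
  have c3 : ∑ k : Fin n, ∑ l : Fin n, t k * t l * (if (k : ℕ) = l then 0 else wE p0 (chainEC k l)) =
      ∑ k ∈ Finset.range n, ∑ l ∈ Finset.range n,
        t k * t l * (if k = l then 0 else wE p0 (chainEC k l)) := by
    rw [Finset.sum_range]
    refine Finset.sum_congr rfl fun k _ => ?_
    rw [Finset.sum_range]
  rw [c1, c2, c3]
  ring

theorem taskC : TaskC := by
  intro n z t ht ht0 hsum
  rw [form_split n z t ht, core_sum (fun i => z (Sum.inl i))]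
  simp only [mix_sum n t ht0]
  rw [chain_sum n t ht0, sum11]
  have hs := sos_chain n t ht0
  have htot : z (Sum.inl 0) + z (Sum.inl 1) + z (Sum.inl 2) + z (Sum.inl 3) + z (Sum.inl 4) +
      z (Sum.inl 5) + z (Sum.inl 6) + z (Sum.inl 7) + z (Sum.inl 8) + z (Sum.inl 9) +
      z (Sum.inl 10) + ∑ k ∈ Finset.range n, t k = 1 := by
    rw [Fintype.sum_sum_type, sum11] at hsum
    rw [Finset.sum_range]
    have : ∑ k : Fin n, t k = ∑ k : Fin n, z (Sum.inr k) := Finset.sum_congr rfl fun k _ => ht k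
    rw [this]
    exact hsum
  have a0 : mixa 0 = 53/120 := rfl
  have a1 : mixa 1 = 53/120 := rfl
  have a2 : mixa 2 = 67/120 := rfl
  have a3 : mixa 3 = 67/120 := rfl
  have a4 : mixa 4 = 67/120 := rfl
  have a5 : mixa 5 = 67/120 := rfl
  have a6 : mixa 6 = 1 := rfl
  have a7 : mixa 7 = 1 := rfl
  have a8 : mixa 8 = 1 := rfl
  have a9 : mixa 9 = 1 := rfl
  have a10 : mixa 10 = 1 := rfl
  have b0 : mixb 0 = 0 := rfl
  have b1 : mixb 1 = 14/120 := rfl
  have b2 : mixb 2 = -(14/120) := rfl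
  have b3 : mixb 3 = 0 := rfl
  have b4 : mixb 4 = 0 := rfl
  have b5 : mixb 5 = 0 := rfl
  have b6 : mixb 6 = 0 := rfl
  have b7 : mixb 7 = 0 := rfl
  have b8 : mixb 8 = 0 := rfl
  have b9 : mixb 9 = 0 := rfl
  have b10 : mixb 10 = 0 := rfl
  simp only [a0, a1, a2, a3, a4, a5, a6, a7, a8, a9, a10, b0, b1, b2, b3, b4, b5, b6, b7, b8, b9,
    b10]
  change _ = 1 - ((67/120 * (z (Sum.inl 0) + ∑ k ∈ Finset.range n, t k)^2 + z (Sum.inl 1)^2 +
    z (Sum.inl 2)^2 + z (Sum.inl 3)^2 + z (Sum.inl 4)^2 + z (Sum.inl 5)^2 + z (Sum.inl 6)^2 +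
    z (Sum.inl 7)^2 + z (Sum.inl 8)^2 + z (Sum.inl 9)^2 + z (Sum.inl 10)^2
     + 2 * (67/120) * ((z (Sum.inl 0) + ∑ k ∈ Finset.range n, t k) * z (Sum.inl 1) +
       z (Sum.inl 1) * z (Sum.inl 2) + z (Sum.inl 3) * z (Sum.inl 4))
     + 2 * (53/120) * ((z (Sum.inl 0) + ∑ k ∈ Finset.range n, t k) * z (Sum.inl 2) +
        (z (Sum.inl 0) + ∑ k ∈ Finset.range n, t k) * z (Sum.inl 3) +
        (z (Sum.inl 0) + ∑ k ∈ Finset.range n, t k) * z (Sum.inl 4) +
        (z (Sum.inl 0) + ∑ k ∈ Finset.range n, t k) * z (Sum.inl 5) +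
        z (Sum.inl 1) * z (Sum.inl 3) + z (Sum.inl 1) * z (Sum.inl 5)
        + z (Sum.inl 2) * z (Sum.inl 5) + z (Sum.inl 4) * z (Sum.inl 5) +
        z (Sum.inl 2) * z (Sum.inl 6) + z (Sum.inl 6) * z (Sum.inl 7) +
        z (Sum.inl 7) * z (Sum.inl 8) + z (Sum.inl 8) * z (Sum.inl 9) +
        z (Sum.inl 9) * z (Sum.inl 10))
     + 2 * (14/120) * (z (Sum.inl 2) - z (Sum.inl 1)) * t 0
     + (49/120) * t 0 ^2)
    + (49/120) * ∑ k ∈ Finset.range n, (t (k+1) - 2/7 * t k)^2)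
  rw [hs]
  have hsq : (1 : ℝ) = (z (Sum.inl 0) + z (Sum.inl 1) + z (Sum.inl 2) + z (Sum.inl 3) +
      z (Sum.inl 4) +
      z (Sum.inl 5) + z (Sum.inl 6) + z (Sum.inl 7) + z (Sum.inl 8) + z (Sum.inl 9) +
      z (Sum.inl 10) + ∑ k ∈ Finset.range n, t k)^2 := by rw [htot]; norm_num
  generalize ∑ k ∈ Finset.range n, t k = s at *
  generalize ∑ k ∈ Finset.range n, (t k)^2 = s2 at *
  generalize ∑ k ∈ Finset.range n, t k * t (k+1) = s3 at *
  generalize z (Sum.inl 0) = x0 at *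
  generalize z (Sum.inl 1) = x1 at *
  generalize z (Sum.inl 2) = x2 at *
  generalize z (Sum.inl 3) = x3 at *
  generalize z (Sum.inl 4) = x4 at *
  generalize z (Sum.inl 5) = x5 at *
  generalize z (Sum.inl 6) = x6 at *
  generalize z (Sum.inl 7) = x7 at *
  generalize z (Sum.inl 8) = x8 at *
  generalize z (Sum.inl 9) = x9 at *
  generalize z (Sum.inl 10) = x10 at *
  linear_combination (-1 : ℝ) * hsq

end

end Pool.Agent.H240R3.WT
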