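import Pool.Agent.H240R3.WT.Main

namespace Pool.Agent.H240R3.WT

open Filter Topology

noncomputable section

theorem form_continuous (p : ℝ) (τ : WType) : Continuous (form p τ) := by
  unfold form
  fun_prop

open Classical in
/-- distribution of a map -/
def dist' {V : Type} {M : ℕ} (ψ : Fin M → V) (v : V) : ℝ :=
  ((Finset.univ.filter (fun i => ψ i = v)).card : ℝ) / M

theorem dist'_mem {V : Type} [Fintype V] {M : ℕ} (hM : 0 < M) (ψ : Fin M → V) :
    dist' ψ ∈ stdSimplex ℝ V := by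
  classical
  refine ⟨fun v => by unfold dist'; positivity, ?_⟩
  unfold dist'
  rw [← Finset.sum_div]
  have h := sum_comp_fiber ψ (fun _ => (1 : ℝ))
  simp only [mul_one] at h
  have h2 : ∑ i : Fin M, (1 : ℝ) = M := by simp
  rw [h2] at h
  have h3 : ∑ v, ((Finset.univ.filter (fun i => ψ i = v)).card : ℝ) = M := by
    rw [h]
  rw [h3]
  have : (M : ℝ) ≠ 0 := by positivity
  field_simp

theorem dist'_form (p : ℝ) (τ : WType) {M : ℕ} (hM : 0 < M) (ψ : Fin M → τ.V) :
    ∑ i, ∑ j, Wm p τ (ψ i) (ψ j) = (M : ℝ)^2 * form p τ (dist' ψ) := by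
  classical
  have h1 : ∀ i, ∑ j, Wm p τ (ψ i) (ψ j) =
      ∑ v, ((Finset.univ.filter (fun i => ψ i = v)).card : ℝ) * Wm p τ (ψ i) v :=
    fun i => sum_comp_fiber ψ (fun v => Wm p τ (ψ i) v)
  simp_rw [h1]
  rw [sum_comp_fiber ψ (fun u => ∑ v, ((Finset.univ.filter (fun i => ψ i = v)).card : ℝ) * Wm p τ u v)]
  unfold form dist'
  have hM' : (M : ℝ) ≠ 0 := by positivity
  rw [Finset.mul_sum]
  refine Finset.sum_congr rfl fun u _ => ?_
  rw [Finset.mul_sum, Finset.mul_sum]
  refine Finset.sum_congr rfl fun v _ => ?_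
  field_simp

/-- The main non-attainment argument. -/
theorem main_upper (hA : TaskA) (p L : ℝ) (hp0 : 0 ≤ p) (hp1 : p ≤ 1) (hL : 0 < L)
    (w : ℝ) (hw : 0 < w) (T : ℕ → WType)
    (H1 : ∀ n, ∀ ζ ∈ stdSimplex ℝ (T n).V, form p (T n) ζ ≤ L)
    (H2 : ∀ K : ℕ, ∃ ε : ℝ, 0 < ε ∧ ∃ z0 : ℝ, 0 < z0 ∧ ∀ n, ∀ ζ ∈ stdSimplex ℝ (T n).V,
      L - ε ≤ form p (T n) ζ →
      ∃ u : Fin K → (T n).V, (∀ k, (T n).vc (u k) = VC.white) ∧
        (∀ k l, k ≠ l → w ≤ Wm p (T n) (u k) (u l)) ∧ ∀ k, z0 ≤ ζ (u k))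
    (τ : WType) (hτ : TFree {H | ∀ n, ¬ Colourable (T n) H} τ) : lam p τ < L := by
  classical
  by_contra hcon
  push Not at hcon
  have hne : Nonempty τ.V := by
    by_contra hempty
    rw [not_nonempty_iff] at hempty
    have h1 : stdSimplex ℝ τ.V = ∅ := by
      ext z
      simp only [stdSimplex, Set.mem_setOf_eq, Set.mem_empty_iff_false, iff_false, not_and]
      intro _
      simp
    unfold lam at hcon
    rw [h1, Set.image_empty, Real.sSup_empty] at hcon
    linarith
  -- the maximiser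
  obtain ⟨y, hy, hyL⟩ : ∃ y ∈ stdSimplex ℝ τ.V, L ≤ form p τ y := by
    have hc : IsCompact (form p τ '' stdSimplex ℝ τ.V) :=
      (isCompact_stdSimplex ℝ τ.V).image (form_continuous p τ)
    have hn : (form p τ '' stdSimplex ℝ τ.V).Nonempty := by
      obtain ⟨v⟩ := hne
      exact ⟨_, Pi.single v 1, single_mem_stdSimplex ℝ v, rfl⟩
    obtain ⟨y, hy, hy2⟩ := hc.sSup_mem hn
    exact ⟨y, hy, by rw [hy2]; exact hcon⟩
  set m : ℕ := Fintype.card τ.V with hm
  have hmpos : 0 < m := Fintype.card_pos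
  obtain ⟨ε, hε, z0, hz0, hH2⟩ := H2 (m + 1)
  have hmR : (0 : ℝ) < m := by exact_mod_cast hmpos
  obtain ⟨M, hM⟩ := exists_nat_gt (1 + L / ε + 2 * m / z0 + L * m ^ 2 / (w * z0 ^ 2))
  have hb1 : 0 < L / ε := by positivity
  have hb2 : 0 < 2 * m / z0 := by positivity
  have hb3 : 0 < L * m ^ 2 / (w * z0 ^ 2) := by positivity
  have hM1 : (1 : ℝ) < M := by linarith
  have hMpos : 0 < M := by
    have : (0 : ℝ) < M := by linarith
    exact_mod_cast this
  have hMR : (0 : ℝ) < M := by exact_mod_cast hMpos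
  have hMe : L / ε < M := by linarith
  have hM2 : 2 * m / z0 < M := by linarith
  have hM3 : L * m ^ 2 / (w * z0 ^ 2) < M := by linarith
  obtain ⟨φ, hφ⟩ := hA τ.V (Wm p τ) y hy.1 hy.2 M
  have hφ2 : (M : ℝ) * (M - 1) * L ≤
      ∑ i, ∑ j, (if i = j then 0 else Wm p τ (φ i) (φ j)) := by
    refine le_trans ?_ hφ
    apply mul_le_mul_of_nonneg_left hyL
    have : (0 : ℝ) ≤ M - 1 := by linarith
    positivity
  have hcol : Colourable τ (blow τ M φ) := ⟨_, blow_inQ τ M φ, Sub_refl _⟩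
  obtain ⟨n, G', ⟨ψ', hψ'⟩, f, hf, hfr, hfb⟩ : ∃ n, Colourable (T n) (blow τ M φ) := by
    by_contra hno
    push Not at hno
    exact hτ _ hno hcol
  let ψ : Fin M → (T n).V := fun i => ψ' (f i)
  have hXY : ∀ i j : Fin M, i ≠ j → Wm p τ (φ i) (φ j) ≤ Wm p (T n) (ψ i) (ψ j) := by
    intro i j hij
    rw [blow_weight p τ M φ i j hij]
    exact pair_le hp0 hp1 (T n) G' ψ' hψ' (f i) (f j) (fun h => hij (hf h)) _ _
      (hfr i j) (hfb i j)
  have hY0 : ∀ i j : Fin M, 0 ≤ Wm p (T n) (ψ i) (ψ j) := fun i j =>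
    Wm_nonneg hp0 hp1 _ _ _
  have hζ := dist'_mem hMpos ψ
  have hform := dist'_form p (T n) hMpos ψ
  have hformL := H1 n _ hζ
  have hge : L - ε ≤ form p (T n) (dist' ψ) := by
    have h1 : ∑ i, ∑ j, (if i = j then 0 else Wm p τ (φ i) (φ j)) ≤
        ∑ i, ∑ j, Wm p (T n) (ψ i) (ψ j) := by
      refine Finset.sum_le_sum fun i _ => Finset.sum_le_sum fun j _ => ?_
      split_ifs with h
      · exact hY0 i j
      · exact hXY i j h
    have h2 : (M : ℝ) * (M - 1) * L ≤ (M : ℝ)^2 * form p (T n) (dist' ψ) := by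
      rw [← hform]; linarith
    have h3 : L < ε * M := by
      rw [div_lt_iff₀ hε] at hMe; linarith
    have h4 : (M : ℝ)^2 * (L - ε) ≤ (M : ℝ)^2 * form p (T n) (dist' ψ) := by
      refine le_trans ?_ h2
      nlinarith
    exact le_of_mul_le_mul_left h4 (by positivity)
  obtain ⟨u, huw, hul, huz⟩ := hH2 n _ hζ hge
  -- cells
  let A : Fin (m+1) → τ.V → Finset (Fin M) := fun k v =>
    Finset.univ.filter (fun i => ψ i = u k ∧ φ i = v)
  have hcell : ∀ k, ∃ v, z0 * M / m ≤ ((A k v).card : ℝ) := by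
    intro k
    have h1 : ∑ v, ((A k v).card : ℝ) = dist' ψ (u k) * M := by
      unfold dist'
      rw [div_mul_cancel₀ _ hMR.ne']
      have h2 := Finset.card_eq_sum_card_fiberwise (f := φ)
        (s := Finset.univ.filter (fun i => ψ i = u k)) (t := Finset.univ)
        (fun x _ => by simp)
      rw [h2]
      push_cast
      refine Finset.sum_congr rfl fun v _ => ?_
      congr 2
      simp only [A, Finset.filter_filter]
    by_contra hno
    push Not at hno
    have h3 : ∑ v, ((A k v).card : ℝ) < ∑ v : τ.V, z0 * M / m :=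
      Finset.sum_lt_sum_of_nonempty Finset.univ_nonempty fun v _ => hno v
    rw [h1] at h3
    simp only [Finset.sum_const, Finset.card_univ, nsmul_eq_mul] at h3
    rw [← hm] at h3
    have h4 : (m : ℝ) * (z0 * M / m) = z0 * M := by field_simp
    rw [h4] at h3
    have h5 := huz k
    nlinarith
  choose v hv using hcell
  obtain ⟨k, l, hkl, hvkl⟩ := Fintype.exists_ne_map_eq_of_card_lt v (by simp [hm])
  have hbig : 2 < z0 * M / m := by
    rw [lt_div_iff₀ hmR]
    rw [div_lt_iff₀ hz0] at hM2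
    linarith
  have hselfk : Wm p (T n) (u k) (u k) = 0 := by
    unfold Wm
    rw [if_pos rfl, huw k]
    rfl
  have hWv : Wm p τ (v k) (v k) = 0 := by
    have h1 : 1 < (A k (v k)).card := by
      have : (2 : ℝ) < ((A k (v k)).card : ℝ) := lt_of_lt_of_le hbig (hv k)
      have : 2 < (A k (v k)).card := by exact_mod_cast this
      omega
    obtain ⟨i, hi, j, hj, hij⟩ := Finset.one_lt_card.mp h1
    simp only [A, Finset.mem_filter, Finset.mem_univ, true_and] at hi hj
    have h2 := hXY i j hij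
    rw [hi.1, hj.1, hi.2, hj.2, hselfk] at h2
    exact le_antisymm h2 (Wm_nonneg hp0 hp1 _ _ _)
  have hukl : u k ≠ u l := by
    intro h
    have := hul k l hkl
    rw [← h, hselfk] at this
    linarith
  have hslack : ∀ i j : Fin M, (if i = j then 0 else Wm p τ (φ i) (φ j)) ≤
      Wm p (T n) (ψ i) (ψ j) - (if i ∈ A k (v k) ∧ j ∈ A l (v l) then w else 0) := by
    intro i j
    by_cases hAB : i ∈ A k (v k) ∧ j ∈ A l (v l)
    · rw [if_pos hAB]
      obtain ⟨hi, hj⟩ := hAB
      simp only [A, Finset.mem_filter, Finset.mem_univ, true_and] at hi hj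
      have hij : i ≠ j := by
        intro h
        rw [h, hj.1] at hi
        exact hukl hi.1.symm
      rw [if_neg hij, hi.1, hj.1, hi.2, hj.2, ← hvkl, hWv]
      have := hul k l hkl
      linarith
    · rw [if_neg hAB, sub_zero]
      split_ifs with h
      · exact hY0 i j
      · exact hXY i j h
  have hsum : ∑ i, ∑ j, (if i = j then 0 else Wm p τ (φ i) (φ j)) ≤
      (M : ℝ)^2 * form p (T n) (dist' ψ) -
        w * ((A k (v k)).card : ℝ) * ((A l (v l)).card : ℝ) := by
    have h1 : ∑ i : Fin M, ∑ j : Fin M,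
        (if i ∈ A k (v k) ∧ j ∈ A l (v l) then w else 0) =
        w * ((A k (v k)).card : ℝ) * ((A l (v l)).card : ℝ) := by
      have h2 : ∀ i : Fin M, ∑ j : Fin M,
          (if i ∈ A k (v k) ∧ j ∈ A l (v l) then w else 0) =
          if i ∈ A k (v k) then w * ((A l (v l)).card : ℝ) else 0 := by
        intro i
        by_cases hi : i ∈ A k (v k)
        · simp only [hi, true_and, if_true]
          rw [Finset.sum_ite_mem]
          simp [mul_comm]
        · simp [hi]
      simp_rw [h2]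
      rw [Finset.sum_ite_mem]
      simp
      ring
    rw [← hform, ← h1, ← Finset.sum_sub_distrib]
    refine Finset.sum_le_sum fun i _ => ?_
    rw [← Finset.sum_sub_distrib]
    exact Finset.sum_le_sum fun j _ => hslack i j
  have hcard : (z0 * M / m) * (z0 * M / m) ≤
      ((A k (v k)).card : ℝ) * ((A l (v l)).card : ℝ) := by
    apply mul_le_mul (hv k) (hv l) (by positivity) (by positivity)
  have hfin : w * ((z0 * M / m) * (z0 * M / m)) ≤ M * L := by
    have h1 : (M : ℝ)^2 * form p (T n) (dist' ψ) ≤ (M : ℝ)^2 * L :=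
      mul_le_mul_of_nonneg_left hformL (by positivity)
    have h2 := mul_le_mul_of_nonneg_left hcard hw.le
    nlinarith
  have h6 : w * ((z0 * M / m) * (z0 * M / m)) = M * (w * z0^2 * M / m^2) := by
    field_simp
  rw [h6] at hfin
  have h7 : w * z0^2 * M / m^2 ≤ L := le_of_mul_le_mul_left hfin hMR
  rw [div_le_iff₀ (by positivity)] at h7
  rw [div_lt_iff₀ (by positivity)] at hM3
  nlinarith

end

end Pool.Agent.H240R3.WT
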